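import Pool.Agent.K4H96.EX.Spec

/-!
# Equality in the one-variable Prekopa-Leindler inequality
-/

set_option autoImplicit false

open MeasureTheory Set Filter Topology

namespace Pool.Agent.K4H96.EX

section Primitive

variable {a : ℝ → ℝ} {α0 α1 : ℝ}

/-- the primitive of a density -/
noncomputable def primi (a : ℝ → ℝ) (α0 : ℝ) (z : ℝ) : ℝ := ∫ x in α0..z, a x

theorem primi_intervalIntegrable (h : α0 < α1) (hai : IntegrableOn a (Ioo α0 α1)) :
    IntervalIntegrable a volume α0 α1 :=
  (intervalIntegrable_iff_integrableOn_Ioo_of_le h.le).2 hai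

theorem primi_continuousOn (h : α0 < α1) (hai : IntegrableOn a (Ioo α0 α1)) :
    ContinuousOn (primi a α0) (Icc α0 α1) := by
  have := intervalIntegral.continuousOn_primitive_interval' (primi_intervalIntegrable h hai)
    (left_mem_uIcc)
  rwa [uIcc_of_le h.le] at this

theorem primi_hasDerivAt (h : α0 < α1) (ha : ContinuousOn a (Ioo α0 α1))
    (hai : IntegrableOn a (Ioo α0 α1)) {z : ℝ} (hz : z ∈ Ioo α0 α1) :
    HasDerivAt (primi a α0) (a z) z := by
  refine intervalIntegral.integral_hasDerivAt_right ?_ ?_ ?_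
  · refine (primi_intervalIntegrable h hai).mono_set ?_
    rw [uIcc_of_le h.le, uIcc_of_le hz.1.le]
    exact Icc_subset_Icc_right hz.2.le
  · exact ha.stronglyMeasurableAtFilter isOpen_Ioo z hz
  · exact ha.continuousAt (isOpen_Ioo.mem_nhds hz)

theorem primi_strictMonoOn (h : α0 < α1) (ha : ContinuousOn a (Ioo α0 α1))
    (hap : ∀ z ∈ Ioo α0 α1, 0 < a z) (hai : IntegrableOn a (Ioo α0 α1)) :
    StrictMonoOn (primi a α0) (Icc α0 α1) := by
  refine strictMonoOn_of_deriv_pos (convex_Icc _ _) (primi_continuousOn h hai) fun z hz => ?_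
  rw [interior_Icc] at hz
  rw [(primi_hasDerivAt h ha hai hz).deriv]
  exact hap z hz

theorem primi_left : primi a α0 α0 = 0 := by
  simp [primi]

theorem primi_right (h : α0 < α1) : primi a α0 α1 = ∫ z in Ioo α0 α1, a z := by
  rw [primi, intervalIntegral.integral_of_le h.le, integral_Ioc_eq_integral_Ioo]

end Primitive

/-- The weighted inequality of the means with its case of equality. -/
theorem amgm_aux {x y s : ℝ} (hx : 0 < x) (hy : 0 < y) (hs : 0 < s) (hs1 : s < 1) :
    x ≤ x ^ (1 - s) * y ^ s * ((1 - s) + s * (x / y)) ∧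
      (x ^ (1 - s) * y ^ s * ((1 - s) + s * (x / y)) = x → x = y) := by
  have hq : 0 < x / y := div_pos hx hy
  have key : x ^ (1 - s) * y ^ s * (x / y) ^ s = x := by
    rw [mul_assoc, ← Real.mul_rpow hy.le hq.le, mul_div_cancel₀ _ hy.ne', ← Real.rpow_add hx]
    simp
  have hpos : 0 < x ^ (1 - s) * y ^ s := mul_pos (Real.rpow_pos_of_pos hx _)
    (Real.rpow_pos_of_pos hy _)
  by_cases h1 : x / y = 1
  · have hxy : x = y := by
      rw [div_eq_one_iff_eq hy.ne'] at h1
      exact h1
    refine ⟨?_, fun _ => hxy⟩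
    rw [h1] at key ⊢
    rw [Real.one_rpow, mul_one] at key
    rw [key]
    apply le_of_eq
    ring
  · have hlt : (x / y) ^ s < (1 - s) + s * (x / y) := by
      have h := rpow_one_add_lt_one_add_mul_self (s := x / y - 1) (by linarith)
        (sub_ne_zero.2 h1) hs hs1
      have e : 1 + (x / y - 1) = x / y := by ring
      rw [e] at h
      linarith
    have hlt2 : x < x ^ (1 - s) * y ^ s * ((1 - s) + s * (x / y)) := by
      calc x = x ^ (1 - s) * y ^ s * (x / y) ^ s := key.symm
        _ < _ := mul_lt_mul_of_pos_left hlt hpos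
    exact ⟨hlt2.le, fun h => absurd h hlt2.ne'⟩

theorem s_a : S_A := by
  intro a b m α0 α1 β0 β1 s hα hβ hs hs1 ha hb hap hbp hai hbi hab hm hm0 hineq hle
  set F := primi a α0 with hF
  set G := primi b β0 with hG
  have hFm := primi_strictMonoOn hα ha hap hai
  have hGm := primi_strictMonoOn hβ hb hbp hbi
  have hFG : F α1 = G β1 := by
    rw [hF, hG, primi_right hα, primi_right hβ, hab]
  have hF0 : F α0 = 0 := primi_left
  have hG0 : G β0 = 0 := primi_left
  -- the transport map
  have hex : ∀ z ∈ Ioo α0 α1, ∃ w ∈ Ioo β0 β1, G w = F z := by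
    intro z hz
    have h1 : F z ∈ Ioo (G β0) (G β1) := by
      rw [← hFG, hG0, ← hF0]
      exact ⟨hFm (left_mem_Icc.2 hα.le) (Ioo_subset_Icc_self hz) hz.1,
        hFm (Ioo_subset_Icc_self hz) (right_mem_Icc.2 hα.le) hz.2⟩
    obtain ⟨w, hw, hwe⟩ := intermediate_value_Ioo hβ.le (primi_continuousOn hβ hbi) h1
    exact ⟨w, hw, hwe⟩
  have hex' : ∀ w ∈ Ioo β0 β1, ∃ z ∈ Ioo α0 α1, F z = G w := by
    intro w hw
    have h1 : G w ∈ Ioo (F α0) (F α1) := by
      rw [hFG, hF0, ← hG0]
      exact ⟨hGm (left_mem_Icc.2 hβ.le) (Ioo_subset_Icc_self hw) hw.1,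
        hGm (Ioo_subset_Icc_self hw) (right_mem_Icc.2 hβ.le) hw.2⟩
    obtain ⟨z, hz, hze⟩ := intermediate_value_Ioo hα.le (primi_continuousOn hα hai) h1
    exact ⟨z, hz, hze⟩
  choose! T hT hGT using hex
  have hTm : StrictMonoOn T (Ioo α0 α1) := by
    intro z hz z' hz' hlt
    by_contra hcon
    push Not at hcon
    have h1 : G (T z') ≤ G (T z) :=
      hGm.monotoneOn (Ioo_subset_Icc_self (hT z' hz')) (Ioo_subset_Icc_self (hT z hz)) hcon
    rw [hGT z hz, hGT z' hz'] at h1
    exact absurd (hFm (Ioo_subset_Icc_self hz) (Ioo_subset_Icc_self hz') hlt) (not_lt.2 h1)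
  have hTim : T '' Ioo α0 α1 = Ioo β0 β1 := by
    apply Subset.antisymm
    · rintro _ ⟨z, hz, rfl⟩
      exact hT z hz
    · intro w hw
      obtain ⟨z, hz, hze⟩ := hex' w hw
      refine ⟨z, hz, ?_⟩
      exact hGm.injOn (Ioo_subset_Icc_self (hT z hz)) (Ioo_subset_Icc_self hw)
        ((hGT z hz).trans hze)
  have hTc : ∀ z ∈ Ioo α0 α1, ContinuousAt T z := by
    intro z hz
    refine hTm.continuousAt_of_image_mem_nhds (isOpen_Ioo.mem_nhds hz) ?_
    rw [hTim]
    exact isOpen_Ioo.mem_nhds (hT z hz)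
  have hTd : ∀ z ∈ Ioo α0 α1, HasDerivAt T (a z / b (T z)) z := by
    intro z hz
    rw [hasDerivAt_iff_tendsto_slope]
    have h1 := (hasDerivAt_iff_tendsto_slope.1 (primi_hasDerivAt hα ha hai hz))
    have h2 := (hasDerivAt_iff_tendsto_slope.1 (primi_hasDerivAt hβ hb hbi (hT z hz)))
    have hmem : ∀ᶠ y in 𝓝[≠] z, y ∈ Ioo α0 α1 :=
      eventually_nhdsWithin_of_eventually_nhds (isOpen_Ioo.mem_nhds hz)
    have hself : ∀ᶠ y in 𝓝[≠] z, y ≠ z := eventually_mem_nhdsWithin
    have hT' : Tendsto T (𝓝[≠] z) (𝓝[≠] (T z)) := by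
      refine tendsto_nhdsWithin_iff.2 ⟨(hTc z hz).tendsto.mono_left nhdsWithin_le_nhds, ?_⟩
      filter_upwards [hmem, hself] with y hy hyz
      intro h
      exact hyz (hTm.injOn hy hz h)
    have h3 := h1.div (h2.comp hT') (hbp _ (hT z hz)).ne'
    refine h3.congr' ?_
    filter_upwards [hmem, hself] with y hy hyz
    have hTy : T y - T z ≠ 0 := sub_ne_zero.2 fun h => hyz (hTm.injOn hy hz h)
    have hFy : F y - F z ≠ 0 := sub_ne_zero.2 fun h =>
      hyz (hFm.injOn (Ioo_subset_Icc_self hy) (Ioo_subset_Icc_self hz) h)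
    have hyz' : y - z ≠ 0 := sub_ne_zero.2 hyz
    simp only [Function.comp_apply, slope_def_field, Pi.div_apply]
    rw [show primi a α0 y = F y from rfl, show primi a α0 z = F z from rfl,
      show primi b β0 (T y) = G (T y) from rfl, show primi b β0 (T z) = G (T z) from rfl,
      hGT y hy, hGT z hz]
    field_simp
  -- the map `H`
  set H : ℝ → ℝ := fun z => (1 - s) * z + s * T z with hH
  have hHd : ∀ z ∈ Ioo α0 α1, HasDerivAt H ((1 - s) + s * (a z / b (T z))) z := by
    intro z hz
    have h1 := ((hasDerivAt_id z).const_mul (1 - s)).add ((hTd z hz).const_mul s)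
    rw [mul_one] at h1
    exact h1
  have hHpos : ∀ z ∈ Ioo α0 α1, 0 < (1 - s) + s * (a z / b (T z)) := by
    intro z hz
    have := div_pos (hap z hz) (hbp _ (hT z hz))
    have := mul_pos hs this
    linarith
  have hHinj : InjOn H (Ioo α0 α1) := by
    have : StrictMonoOn H (Ioo α0 α1) := by
      intro z hz z' hz' hlt
      have h1 := hTm hz hz' hlt
      simp only [hH]
      have h2 := mul_lt_mul_of_pos_left hlt (show 0 < 1 - s by linarith)
      have h3 := mul_lt_mul_of_pos_left h1 hs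
      linarith
    exact this.injOn
  have hchange := integral_image_eq_integral_abs_deriv_smul (measurableSet_Ioo (a := α0) (b := α1))
    (fun z hz => (hHd z hz).hasDerivWithinAt) hHinj m
  have hint : IntegrableOn m (H '' Ioo α0 α1) := hm.integrableOn
  have hint2 := (integrableOn_image_iff_integrableOn_abs_deriv_smul
    (measurableSet_Ioo (a := α0) (b := α1))
    (fun z hz => (hHd z hz).hasDerivWithinAt) hHinj m).1 hint
  set R : ℝ → ℝ := fun z => a z ^ (1 - s) * b (T z) ^ s * ((1 - s) + s * (a z / b (T z))) with hR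
  have hRm : ∀ z ∈ Ioo α0 α1, R z ≤ |(1 - s) + s * (a z / b (T z))| • m (H z) := by
    intro z hz
    rw [abs_of_pos (hHpos z hz), smul_eq_mul, mul_comm]
    exact mul_le_mul_of_nonneg_right (hineq z hz (T z) (hT z hz)) (hHpos z hz).le
  have haR : ∀ z ∈ Ioo α0 α1, a z ≤ R z := fun z hz =>
    (amgm_aux (hap z hz) (hbp _ (hT z hz)) hs hs1).1
  have hTcon : ContinuousOn T (Ioo α0 α1) := fun z hz => (hTc z hz).continuousWithinAt
  have hbT : ContinuousOn (fun z => b (T z)) (Ioo α0 α1) :=
    hb.comp hTcon (fun z hz => hT z hz)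
  have hRc : ContinuousOn R (Ioo α0 α1) := by
    refine ContinuousOn.mul (ContinuousOn.mul ?_ ?_) ?_
    · exact ha.rpow_const fun z hz => Or.inl (hap z hz).ne'
    · exact hbT.rpow_const fun z hz => Or.inl (hbp _ (hT z hz)).ne'
    · exact continuousOn_const.add (continuousOn_const.mul
        (ha.div hbT fun z hz => (hbp _ (hT z hz)).ne'))
  have hRi : IntegrableOn R (Ioo α0 α1) := by
    refine Integrable.mono' hint2 (hRc.aestronglyMeasurable measurableSet_Ioo) ?_
    rw [ae_restrict_iff' measurableSet_Ioo]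
    refine Eventually.of_forall fun z hz => ?_
    rw [Real.norm_of_nonneg ((hap z hz).le.trans (haR z hz))]
    exact hRm z hz
  have hIR : (∫ z in Ioo α0 α1, R z) ≤ ∫ z in Ioo α0 α1, a z := by
    calc (∫ z in Ioo α0 α1, R z)
        ≤ ∫ z in Ioo α0 α1, |(1 - s) + s * (a z / b (T z))| • m (H z) :=
          setIntegral_mono_on hRi hint2 measurableSet_Ioo hRm
      _ = ∫ x in H '' Ioo α0 α1, m x := hchange.symm
      _ ≤ ∫ x, m x := setIntegral_le_integral hm (Eventually.of_forall hm0)
      _ ≤ _ := hle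
  have hzero : ∫ z in Ioo α0 α1, (R z - a z) = 0 := by
    rw [integral_sub hRi hai]
    have := setIntegral_mono_on hai hRi measurableSet_Ioo haR
    linarith
  have hae : (fun z => R z - a z) =ᵐ[volume.restrict (Ioo α0 α1)] 0 := by
    refine (setIntegral_eq_zero_iff_of_nonneg_ae ?_ (hRi.sub hai)).1 hzero
    rw [EventuallyLE, ae_restrict_iff' measurableSet_Ioo]
    refine Eventually.of_forall fun z hz => ?_
    simpa using haR z hz
  have heq : EqOn (fun z => R z - a z) 0 (Ioo α0 α1) :=
    Measure.eqOn_Ioo_of_ae_eq volume hae (hRc.sub ha) continuousOn_const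
  have hab' : ∀ z ∈ Ioo α0 α1, a z = b (T z) := by
    intro z hz
    have h1 : R z - a z = 0 := heq hz
    exact (amgm_aux (hap z hz) (hbp _ (hT z hz)) hs hs1).2 (by
      have : R z = a z := by linarith
      exact this)
  -- `T` is a translation
  obtain ⟨c, hc⟩ : ∃ c : ℝ, ∀ z ∈ Ioo α0 α1, T z = z + c := by
    have hd : ∀ z ∈ Ioo α0 α1, HasDerivAt (fun z => T z - z) 0 z := by
      intro z hz
      have h1 := (hTd z hz).sub (hasDerivAt_id z)
      rw [← hab' z hz, div_self (hap z hz).ne', sub_self] at h1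
      exact h1
    obtain ⟨c, hc⟩ := isOpen_Ioo.exists_is_const_of_deriv_eq_zero
      (isPreconnected_Ioo (a := α0) (b := α1))
      (fun z hz => (hd z hz).differentiableAt.differentiableWithinAt)
      (fun z hz => (hd z hz).deriv)
    exact ⟨c, fun z hz => by linarith [hc z hz]⟩
  have himg : Ioo (α0 + c) (α1 + c) = Ioo β0 β1 := by
    rw [← hTim, ← image_add_const_Ioo]
    exact image_congr fun z hz => (hc z hz).symm
  have hlt : α0 + c < α1 + c := by linarith
  have h0 : α0 + c = β0 := by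
    have h1 := congrArg sInf himg
    rwa [csInf_Ioo hlt, csInf_Ioo hβ] at h1
  have h1 : α1 + c = β1 := by
    have h1 := congrArg sSup himg
    rwa [csSup_Ioo hlt, csSup_Ioo hβ] at h1
  have hcc : β0 - α0 = c := by linarith
  refine ⟨by linarith, fun z hz => ?_⟩
  rw [hcc, ← hc z hz]
  exact (hab' z hz).symm

end Pool.Agent.K4H96.EX
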