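import Pool.Agent.K4H96.EX.Spec

/-!
# The bump: an odd function on the sphere, supported in two opposite caps, which is a difference of
support functions
-/

set_option autoImplicit false

open MeasureTheory Set
open scoped Pointwise Matrix

namespace Pool.Agent.K4H96.EX

/-- the profile of the bump -/
noncomputable def prof (c t : ℝ) : ℝ := max (t - c) 0 ^ 2 - max (-t - c) 0 ^ 2

/-- its derivative -/
noncomputable def dprof (c t : ℝ) : ℝ := 2 * max (t - c) 0 + 2 * max (-t - c) 0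

theorem sq_taylor (a b : ℝ) : 0 ≤ max a 0 ^ 2 - max b 0 ^ 2 - 2 * max b 0 * (a - b) ∧
    max a 0 ^ 2 - max b 0 ^ 2 - 2 * max b 0 * (a - b) ≤ (a - b) ^ 2 := by
  rcases le_total a 0 with ha | ha <;> rcases le_total b 0 with hb | hb
  · rw [max_eq_right ha, max_eq_right hb]
    constructor <;> nlinarith [sq_nonneg (a - b)]
  · rw [max_eq_right ha, max_eq_left hb]
    constructor <;> nlinarith [sq_nonneg (a - b), mul_nonneg (neg_nonneg.2 ha) hb, sq_nonneg a]
  · rw [max_eq_left ha, max_eq_right hb]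
    constructor <;> nlinarith [sq_nonneg (a - b), mul_nonneg ha (neg_nonneg.2 hb), sq_nonneg b]
  · rw [max_eq_left ha, max_eq_left hb]
    constructor <;> nlinarith [sq_nonneg (a - b)]

theorem prof_taylor (c t t₀ : ℝ) :
    |prof c t - prof c t₀ - dprof c t₀ * (t - t₀)| ≤ (t - t₀) ^ 2 := by
  obtain ⟨h1, h2⟩ := sq_taylor (t - c) (t₀ - c)
  obtain ⟨h3, h4⟩ := sq_taylor (-t - c) (-t₀ - c)
  have e1 : t - c - (t₀ - c) = t - t₀ := by ring
  have e2 : -t - c - (-t₀ - c) = -(t - t₀) := by ring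
  rw [e1] at h1 h2
  rw [e2] at h3 h4
  unfold prof dprof
  rw [abs_le]
  constructor <;> nlinarith

theorem prof_neg (c t : ℝ) : prof c (-t) = - prof c t := by
  unfold prof
  rw [neg_neg]
  ring

theorem prof_zero_of {c t : ℝ} (h : |t| ≤ c) : prof c t = 0 := by
  rw [abs_le] at h
  unfold prof
  rw [max_eq_right (by linarith), max_eq_right (by linarith)]
  ring

theorem cap_mem {c t : ℝ} (hc : 0 ≤ c) (h : t ≤ 1) : 0 ≤ max (t - c) 0 ∧ max (t - c) 0 ≤ 1 :=
  ⟨le_max_right _ _, max_le (by linarith) (by norm_num)⟩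

theorem prof_le {c t : ℝ} (hc : 0 ≤ c) (h : |t| ≤ 1) : |prof c t| ≤ 1 := by
  rw [abs_le] at h
  obtain ⟨h1, h2⟩ := cap_mem hc h.2
  obtain ⟨h3, h4⟩ := cap_mem (t := -t) hc (by linarith)
  unfold prof
  rw [abs_le]
  constructor <;> nlinarith

theorem tangent_le {c t : ℝ} (hc : 0 ≤ c) (h : |t| ≤ 1) : |prof c t - dprof c t * t| ≤ 5 := by
  have h0 := prof_le hc h
  rw [abs_le] at h h0
  obtain ⟨h1, h2⟩ := cap_mem hc h.2
  obtain ⟨h3, h4⟩ := cap_mem (t := -t) hc (by linarith)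
  have h5 : 0 ≤ dprof c t := by
    unfold dprof
    linarith
  have h6 : dprof c t ≤ 4 := by
    unfold dprof
    linarith
  rw [abs_le]
  constructor <;> nlinarith

theorem dot_comb (a b : ℝ) (x y z : V) : (a • x + b • y) ⬝ᵥ z = a * (x ⬝ᵥ z) + b * (y ⬝ᵥ z) := by
  simp only [dotProduct, Fin.sum_univ_three, Pi.add_apply, Pi.smul_apply, smul_eq_mul]
  ring

theorem dot_cs (x y : V) : (x ⬝ᵥ y) ^ 2 ≤ (x ⬝ᵥ x) * (y ⬝ᵥ y) := by
  simp only [dotProduct, Fin.sum_univ_three]
  nlinarith [sq_nonneg (x 0 * y 1 - x 1 * y 0), sq_nonneg (x 0 * y 2 - x 2 * y 0),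
    sq_nonneg (x 1 * y 2 - x 2 * y 1)]

theorem dot_self_nonneg (x : V) : 0 ≤ x ⬝ᵥ x := by
  simp only [dotProduct, Fin.sum_univ_three]
  nlinarith [sq_nonneg (x 0), sq_nonneg (x 1), sq_nonneg (x 2)]

theorem nrm_sq (x : V) : nrm x ^ 2 = x ⬝ᵥ x := Real.sq_sqrt (dot_self_nonneg x)

theorem nrm_nonneg (x : V) : 0 ≤ nrm x := Real.sqrt_nonneg _

theorem nrm_smul (t : ℝ) (ht : 0 ≤ t) (x : V) : nrm (t • x) = t * nrm x := by
  unfold nrm
  have : (t • x) ⬝ᵥ (t • x) = t ^ 2 * (x ⬝ᵥ x) := by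
    simp only [dotProduct, Fin.sum_univ_three, Pi.smul_apply, smul_eq_mul]
    ring
  rw [this, Real.sqrt_mul (sq_nonneg t), Real.sqrt_sq ht]

theorem nrm_neg' (x : V) : nrm (-x) = nrm x := by
  unfold nrm
  congr 1
  simp only [dotProduct, Fin.sum_univ_three, Pi.neg_apply]
  ring

theorem nrm_pos_of_ne {x : V} (h : x ≠ 0) : 0 < nrm x := by
  apply Real.sqrt_pos.2
  by_contra hcon
  apply h
  have h0 : x ⬝ᵥ x = 0 := le_antisymm (not_lt.1 hcon) (dot_self_nonneg x)
  simp only [dotProduct, Fin.sum_univ_three] at h0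
  have h1 : x 0 = 0 := by nlinarith [sq_nonneg (x 0), sq_nonneg (x 1), sq_nonneg (x 2)]
  have h2 : x 1 = 0 := by nlinarith [sq_nonneg (x 0), sq_nonneg (x 1), sq_nonneg (x 2)]
  have h3 : x 2 = 0 := by nlinarith [sq_nonneg (x 0), sq_nonneg (x 1), sq_nonneg (x 2)]
  ext i
  fin_cases i <;> assumption

theorem nrm_zero' : nrm (0 : V) = 0 := by
  simp [nrm]

/-- the bump -/
noncomputable def bump (c : ℝ) (u x : V) : ℝ := nrm x * prof c ((x ⬝ᵥ u) / nrm x)

theorem ratio_le (u : V) (hu : u ⬝ᵥ u = 1) (x : V) : |(x ⬝ᵥ u) / nrm x| ≤ 1 := by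
  rcases eq_or_ne x 0 with rfl | hx
  · simp [nrm_zero']
  · have hn := nrm_pos_of_ne hx
    rw [abs_div, abs_of_pos hn, div_le_one hn]
    have h1 := dot_cs x u
    rw [hu, mul_one, ← nrm_sq] at h1
    exact abs_le_of_sq_le_sq h1 hn.le

/-- a function with a supporting linear function at every point is convex -/
theorem convex_of_support (F : V → ℝ)
    (h : ∀ x₀ : V, ∃ p : V, (∀ x, x ⬝ᵥ p ≤ F x) ∧ x₀ ⬝ᵥ p = F x₀) : ConvexOn ℝ univ F := by
  refine ⟨convex_univ, fun x _ y _ a b ha hb hab => ?_⟩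
  obtain ⟨p, hp1, hp2⟩ := h (a • x + b • y)
  rw [← hp2, dot_comb, smul_eq_mul, smul_eq_mul]
  exact add_le_add (mul_le_mul_of_nonneg_left (hp1 x) ha) (mul_le_mul_of_nonneg_left (hp1 y) hb)

theorem convex_aux (u : V) (hu : u ⬝ᵥ u = 1) (c : ℝ) (hc : 0 ≤ c) (ε : ℝ) (hε : |ε| = 1) :
    ConvexOn ℝ univ (fun x => 7 * nrm x + ε * bump c u x) := by
  have hbump : ∀ x, |bump c u x| ≤ nrm x := by
    intro x
    unfold bump
    rw [abs_mul, abs_of_nonneg (nrm_nonneg x)]
    exact mul_le_of_le_one_right (nrm_nonneg x) (prof_le hc (ratio_le u hu x))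
  have hnonneg : ∀ x, 0 ≤ 7 * nrm x + ε * bump c u x := by
    intro x
    have h1 : |ε * bump c u x| ≤ nrm x := by
      rw [abs_mul, hε, one_mul]
      exact hbump x
    have := (abs_le.1 h1).1
    have := nrm_nonneg x
    linarith
  apply convex_of_support
  intro x₀
  rcases eq_or_ne x₀ 0 with rfl | hx₀
  · refine ⟨0, fun x => ?_, ?_⟩
    · rw [dotProduct_zero]
      exact hnonneg x
    · simp [nrm_zero', bump]
  · have hn₀ := nrm_pos_of_ne hx₀
    set t₀ : ℝ := (x₀ ⬝ᵥ u) / nrm x₀ with ht₀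
    set κ : ℝ := 7 + ε * (prof c t₀ - dprof c t₀ * t₀) with hκ
    refine ⟨(κ / nrm x₀) • x₀ + (ε * dprof c t₀) • u, fun x => ?_, ?_⟩
    · rcases eq_or_ne x 0 with rfl | hx
      · rw [zero_dotProduct]
        exact hnonneg 0
      have hn := nrm_pos_of_ne hx
      set t : ℝ := (x ⬝ᵥ u) / nrm x with ht
      set w : ℝ := (x ⬝ᵥ x₀) / (nrm x * nrm x₀) with hw
      have hxu : x ⬝ᵥ u = nrm x * t := by
        rw [ht]
        field_simp
      have hxx : x ⬝ᵥ x₀ = nrm x * nrm x₀ * w := by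
        rw [hw]
        field_simp
      have hx₀u : x₀ ⬝ᵥ u = nrm x₀ * t₀ := by
        rw [ht₀]
        field_simp
      -- the distance on the sphere
      have hdist : (t - t₀) ^ 2 ≤ 2 * (1 - w) := by
        have h1 := dot_cs ((1 / nrm x) • x + (-(1 / nrm x₀)) • x₀) u
        rw [hu, mul_one, dot_comb, hxu, hx₀u] at h1
        have h2 : ((1 / nrm x) • x + (-(1 / nrm x₀)) • x₀) ⬝ᵥ
            ((1 / nrm x) • x + (-(1 / nrm x₀)) • x₀) =
            (1 / nrm x) ^ 2 * (x ⬝ᵥ x) + (1 / nrm x₀) ^ 2 * (x₀ ⬝ᵥ x₀) -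
              2 * (1 / nrm x) * (1 / nrm x₀) * (x ⬝ᵥ x₀) := by
          simp only [dotProduct, Fin.sum_univ_three, Pi.add_apply, Pi.smul_apply, smul_eq_mul]
          ring
        rw [h2, ← nrm_sq, ← nrm_sq, hxx] at h1
        have e1 : 1 / nrm x * (nrm x * t) + -(1 / nrm x₀) * (nrm x₀ * t₀) = t - t₀ := by
          field_simp
          ring
        have e2 : (1 / nrm x) ^ 2 * nrm x ^ 2 + (1 / nrm x₀) ^ 2 * nrm x₀ ^ 2 -
            2 * (1 / nrm x) * (1 / nrm x₀) * (nrm x * nrm x₀ * w) = 2 * (1 - w) := by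
          field_simp
          ring
        rw [e1, e2] at h1
        exact h1
      have hw1 : 0 ≤ 1 - w := by nlinarith [sq_nonneg (t - t₀)]
      have hT := prof_taylor c t t₀
      have hT2 : |prof c t₀ - dprof c t₀ * t₀| ≤ 5 := tangent_le hc (ratio_le u hu x₀)
      have hT' : |ε * (prof c t - prof c t₀ - dprof c t₀ * (t - t₀))| ≤ (t - t₀) ^ 2 := by
        rw [abs_mul, hε, one_mul]
        exact hT
      have hT2' : |ε * (prof c t₀ - dprof c t₀ * t₀)| ≤ 5 := by
        rw [abs_mul, hε, one_mul]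
        exact hT2
      have h3 := (abs_le.1 hT').1
      have h4 := (abs_le.1 hT2').1
      have hb : bump c u x = nrm x * prof c t := rfl
      have hdot : x ⬝ᵥ ((κ / nrm x₀) • x₀ + (ε * dprof c t₀) • u) =
          nrm x * (κ * w + ε * dprof c t₀ * t) := by
        rw [dotProduct_comm, dot_comb, dotProduct_comm x₀ x, dotProduct_comm u x, hxx, hxu]
        field_simp
      show x ⬝ᵥ ((κ / nrm x₀) • x₀ + (ε * dprof c t₀) • u) ≤ 7 * nrm x + ε * bump c u x
      rw [hdot, hb]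
      have hkey : κ * w + ε * dprof c t₀ * t ≤ 7 + ε * prof c t := by
        have h5 : -5 * (1 - w) ≤ ε * (prof c t₀ - dprof c t₀ * t₀) * (1 - w) :=
          mul_le_mul_of_nonneg_right h4 hw1
        rw [hκ]
        nlinarith
      calc nrm x * (κ * w + ε * dprof c t₀ * t) ≤ nrm x * (7 + ε * prof c t) :=
            mul_le_mul_of_nonneg_left hkey hn.le
        _ = _ := by ring
    · have hb : bump c u x₀ = nrm x₀ * prof c t₀ := rfl
      have hx₀u : x₀ ⬝ᵥ u = nrm x₀ * t₀ := by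
        rw [ht₀]
        field_simp
      show x₀ ⬝ᵥ ((κ / nrm x₀) • x₀ + (ε * dprof c t₀) • u) = 7 * nrm x₀ + ε * bump c u x₀
      rw [dotProduct_comm, dot_comb, dotProduct_comm u x₀, ← nrm_sq, hx₀u, hb, hκ]
      field_simp
      ring

theorem s_b : S_B := by
  intro u hu c hc hc1
  have hnu : nrm u = 1 := by
    unfold nrm
    rw [hu, Real.sqrt_one]
  refine ⟨bump c u, ?_, ?_, ?_, ?_, ?_, 7, by norm_num, ?_, ?_⟩
  · intro x
    unfold bump
    rw [nrm_neg', neg_dotProduct, neg_div, prof_neg]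
    ring
  · intro t ht x
    rcases eq_or_lt_of_le ht with rfl | ht'
    · simp [bump, nrm_zero']
    · unfold bump
      rw [nrm_smul t ht, smul_dotProduct, smul_eq_mul, mul_div_mul_left _ _ ht'.ne']
      ring
  · intro x
    unfold bump
    rw [abs_mul, abs_of_nonneg (nrm_nonneg x)]
    exact mul_le_of_le_one_right (nrm_nonneg x) (prof_le hc (ratio_le u hu x))
  · unfold bump prof
    rw [hnu, hu, div_one, one_mul, max_eq_left (by linarith), max_eq_right (by linarith)]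
    nlinarith
  · intro x hx
    rcases eq_or_ne x 0 with rfl | hx0
    · simp [bump, nrm_zero']
    · have hn := nrm_pos_of_ne hx0
      unfold bump
      rw [prof_zero_of, mul_zero]
      rw [abs_div, abs_of_pos hn, div_le_iff₀ hn]
      exact hx
  · have := convex_aux u hu c hc 1 (by simp)
    simpa using this
  · have := convex_aux u hu c hc (-1) (by simp)
    simpa [sub_eq_add_neg] using this

end Pool.Agent.K4H96.EX
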