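import Mathlib
import Pool.Agent.TH219.DL.Defs

/-!
# Minimisers of the translative packing density: specification of the modules

FINAL THEOREM (MP_3d065d_co): let `K` be a convex body in `ℝ³`. If `K = (1-s) K0 + s K1` with `0 < s < 1` and
bodies `K0`, `K1` with the same difference body as `K`, not translates of each other, then `δ_T` and `δ_L`
of `K0` or of `K1` are smaller than those of `K`. In particular no minimiser (even local) of `δ_T`, `δ_L`
has positive curvature near a pair of boundary points with opposite normals.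
-/

set_option autoImplicit false

open MeasureTheory Set
open scoped Pointwise Matrix

namespace Pool.Agent.K4H96.EX

abbrev V := Fin 3 → ℝ

open Pool.Agent.TH219.DL (Body)

/-- the support function of `K` -/
noncomputable def supp (K : Set V) (x : V) : ℝ := sSup ((fun y : V => x ⬝ᵥ y) '' K)

/-- the Euclidean norm -/
noncomputable def nrm (x : V) : ℝ := √(x ⬝ᵥ x)

/-- `K` is round at the unit vector `u`: on a circular cone around `u` the support function of `K` minus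
that of some ball is convex (the lower principal radii of curvature of `K` are bounded below by `r > 0` near
`u`; for instance, the boundary of `K` is of class `C²` with positive curvature near the point with
outer normal `u`) -/
def Round (K : Set V) (u : V) : Prop :=
  ∃ r c : ℝ, 0 < r ∧ 0 ≤ c ∧ c < 1 ∧
    ConvexOn ℝ {x : V | c * nrm x < x ⬝ᵥ u} (fun x => supp K x - r * nrm x)

/-- MODULE A (one variable): the case of equality in the Prekopa-Leindler inequality for continuous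
densities with equal integrals.
Proof: `F z = ∫_{α0}^z a`, `G w = ∫_{β0}^w b` increasing homeomorphisms onto `[0, V]`, `T = G⁻¹ ∘ F`,
`T' z = a z / b (T z)` on the open interval (`HasDerivAt.of_local_left_inverse`), `H z = (1-s) z + s T z`
increasing. `∫ m ≥ ∫_{H '' Ioo} m = ∫_{Ioo} m (H z) * H' z ≥ ∫ a^(1-s) b(T)^s ((1-s) + s q)`,
`q = a / b(T)`, and `a^(1-s) b(T)^s ((1-s) + s q) ≥ a^(1-s) b(T)^s q^s = a` by weighted AM-GM, with
equality only if `q = 1`. The integral of the difference (continuous, nonnegative) is `≤ 0`, so `q = 1`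
everywhere, `T' = 1`, `T z = z + c`, and the end points correspond. -/
def S_A : Prop :=
  ∀ (a b m : ℝ → ℝ) (α0 α1 β0 β1 s : ℝ), α0 < α1 → β0 < β1 → 0 < s → s < 1 →
    ContinuousOn a (Ioo α0 α1) → ContinuousOn b (Ioo β0 β1) →
    (∀ z ∈ Ioo α0 α1, 0 < a z) → (∀ w ∈ Ioo β0 β1, 0 < b w) →
    IntegrableOn a (Ioo α0 α1) → IntegrableOn b (Ioo β0 β1) →
    (∫ z in Ioo α0 α1, a z) = (∫ w in Ioo β0 β1, b w) →
    Integrable m → (∀ z, 0 ≤ m z) →
    (∀ z ∈ Ioo α0 α1, ∀ w ∈ Ioo β0 β1, a z ^ (1 - s) * b w ^ s ≤ m ((1 - s) * z + s * w)) →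
    (∫ z, m z) ≤ (∫ z in Ioo α0 α1, a z) →
    β1 = α1 + (β0 - α0) ∧ ∀ z ∈ Ioo α0 α1, b (z + (β0 - α0)) = a z

/-- MODULE B (the bump). Explicitly: `g x = (⟨x,u⟩ - c|x|)₊² / |x| - (-⟨x,u⟩ - c|x|)₊² / |x|`
(`0` at `0`). It is `|x| φ(⟨x,u⟩/|x|)` with `φ t = (t-c)₊² - (-t-c)₊²`; `(t-c)₊²` and
`t² - (t-c)₊²` are convex. Fact: if `φ` is convex on `[-1,1]` and `C + φ t - t φ'(t) ≥ 0`, then
`C |x| + |x| φ(⟨x,u⟩/|x|)` is convex, because `(l, n) ↦ n (C + φ(l/n))` is jointly convex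
(perspective) and nondecreasing in `n` for `|l| ≤ n`, and `|x|` is convex. For `-φ` write
`C|x| - |x|φ = [C₁|x| + |x| (t² - φ)] + [C₂|x| - ⟨x,u⟩²/|x|]` and `C₂|x| - ⟨x,u⟩²/|x| = (C₂-1)|x| +
(|x|² - ⟨x,u⟩²)/|x|`, `|x|² - ⟨x,u⟩² = ∑ of squares of linear functions l_i` (`l_i = x_i - ⟨x,u⟩u_i`),
each `|x| + l_i²/|x|` convex by the Fact with `φ = t²`. (Any other proof or any other `g` is fine.) -/
def S_B : Prop :=
  ∀ u : V, u ⬝ᵥ u = 1 → ∀ c : ℝ, 0 ≤ c → c < 1 →
    ∃ g : V → ℝ, (∀ x, g (-x) = - g x) ∧ (∀ t : ℝ, 0 ≤ t → ∀ x, g (t • x) = t * g x) ∧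
      (∀ x, |g x| ≤ nrm x) ∧ 0 < g u ∧ (∀ x, |x ⬝ᵥ u| ≤ c * nrm x → g x = 0) ∧
      ∃ C : ℝ, 0 < C ∧ ConvexOn ℝ univ (fun x => C * nrm x + g x) ∧
        ConvexOn ℝ univ (fun x => C * nrm x - g x)

/-- MODULE C (gluing). Segments through `0`: homogeneity and `0 ≤ f x + f (-x)`. Other segments:
`φ t = f ((1-t) x + t y)` is continuous on `[0,1]` and convex near every point (the three open sets
`|⟨p,u⟩| < c'|p|`, `c|p| < ⟨p,u⟩`, `c|p| < -⟨p,u⟩` cover `p ≠ 0`); local to global: if `φ` minus the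
chord had a positive maximum, look at the leftmost maximum point. -/
def S_C : Prop :=
  ∀ (f h : V → ℝ) (u : V) (c c' : ℝ), u ⬝ᵥ u = 1 → 0 ≤ c → c < c' → c' < 1 → Continuous f →
    (∀ t : ℝ, 0 ≤ t → ∀ x, f (t • x) = t * f x) → (∀ x, 0 ≤ f x + f (-x)) →
    ConvexOn ℝ univ h → (∀ x, |x ⬝ᵥ u| ≤ c' * nrm x → f x = h x) →
    ConvexOn ℝ {x : V | c * nrm x < x ⬝ᵥ u} f → ConvexOn ℝ {x : V | c * nrm x < - (x ⬝ᵥ u)} f →
    ConvexOn ℝ univ f

/-- MODULE D (bodies from support functions). `K0 = {y | ∀ x, ⟨x,y⟩ ≤ supp K x + g x}`,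
`K1 = {y | ∀ x, ⟨x,y⟩ ≤ supp K x - g x}`; their support functions are `supp K ± g`
(`exists_extension_of_le_sublinear`); support functions determine compact convex sets
(`geometric_hahn_banach_...`) and are additive, so `K0 - K0 = K - K` (`g` is odd) and
`K = (K0 + K1)/2`. If `K1 = K0 + v` then `-2 g x = ⟨x,v⟩`, excluded. `K0` has interior points because
`K0 - K0` has (otherwise `K0` lies in a plane). -/
def S_D : Prop :=
  ∀ (K : Set V) (g : V → ℝ) (η : ℝ), Body K → 0 < η → (∀ x, g (-x) = - g x) →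
    (∀ t : ℝ, 0 ≤ t → ∀ x, g (t • x) = t * g x) → (∀ x, |g x| ≤ η * nrm x) →
    (∀ v : V, ∃ x, g x ≠ x ⬝ᵥ v) →
    ConvexOn ℝ univ (fun x => supp K x + g x) → ConvexOn ℝ univ (fun x => supp K x - g x) →
    ∃ K0 K1 : Set V, Body K0 ∧ Body K1 ∧ K0 - K0 = K - K ∧ K1 - K1 = K - K ∧
      K = (1 / 2 : ℝ) • K0 + (1 / 2 : ℝ) • K1 ∧ (∀ v : V, K1 ≠ (fun x => x + v) '' K0) ∧
      (∀ y ∈ K, ∃ y' ∈ K0, nrm (y - y') ≤ η) ∧ (∀ y ∈ K0, ∃ y' ∈ K, nrm (y - y') ≤ η) ∧
      (∀ y ∈ K, ∃ y' ∈ K1, nrm (y - y') ≤ η) ∧ (∀ y ∈ K1, ∃ y' ∈ K, nrm (y - y') ≤ η)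

/-- the case of equality in the Brunn-Minkowski inequality for bodies of equal volume (helper96) -/
def S_BM : Prop :=
  ∀ A B : Set V, IsCompact A → Convex ℝ A → (interior A).Nonempty →
    IsCompact B → Convex ℝ B → (interior B).Nonempty → volume A = volume B →
    ∀ s : ℝ, 0 < s → s < 1 → volume ((1 - s) • A + s • B) ≤ volume A →
    ∃ v : V, B = (fun x => x + v) '' A

end Pool.Agent.K4H96.EX
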