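import Mathlib
import Pool.Agent.K4H96.EX.Spec
import Pool.Agent.H212R2.KLS.T1

/-!
# Equality in the Brunn-Minkowski inequality: slices
-/

set_option autoImplicit false

open MeasureTheory Set
open scoped Pointwise ENNReal

namespace Pool.Agent.K4H96.EX

abbrev Q2 := Fin 2 → ℝ
abbrev P3 := ℝ × (Fin 2 → ℝ)

/-- the slice at height `z` -/
def sl (A : Set P3) (z : ℝ) : Set Q2 := {y | (z, y) ∈ A}

/-- its area -/
noncomputable def ar (A : Set P3) (z : ℝ) : ℝ := (volume (sl A z)).toReal

theorem sl_compact {A : Set P3} (hA : IsCompact A) (z : ℝ) : IsCompact (sl A z) := by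
  have h1 : sl A z = Prod.snd '' (A ∩ (Prod.fst ⁻¹' {z})) := by
    ext r
    constructor
    · intro h
      exact ⟨(z, r), ⟨h, rfl⟩, rfl⟩
    · rintro ⟨⟨z', r'⟩, ⟨h1, h2⟩, rfl⟩
      simp only [mem_preimage, mem_singleton_iff] at h2
      subst h2
      exact h1
  rw [h1]
  exact (hA.inter_right (isClosed_singleton.preimage continuous_fst)).image continuous_snd

theorem ar_nonneg (A : Set P3) (z : ℝ) : 0 ≤ ar A z := ENNReal.toReal_nonneg

theorem ofReal_ar {A : Set P3} (hA : IsCompact A) (z : ℝ) :
    ENNReal.ofReal (ar A z) = volume (sl A z) :=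
  ENNReal.ofReal_toReal (sl_compact hA z).measure_lt_top.ne

/-- multiplicative Brunn-Minkowski for areas -/
theorem bm_mult {A C D : Set Q2} (hA : IsCompact A) (hC : IsCompact C) (hD : IsCompact D) {t : ℝ}
    (ht0 : 0 < t) (ht1 : t < 1) (h : ∀ x ∈ A, ∀ y ∈ C, (1 - t) • x + t • y ∈ D) :
    (volume A).toReal ^ (1 - t) * (volume C).toReal ^ t ≤ (volume D).toReal := by
  have hPL := Pool.Agent.H212R2.KLS.PL (volume : Measure Q2) t ht0 ht1
    (A.indicator 1) (C.indicator 1)
    (D.indicator 1) (measurable_one.indicator hA.measurableSet)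
    (measurable_one.indicator hC.measurableSet) (measurable_one.indicator hD.measurableSet) ?_
  · rw [lintegral_indicator_one hA.measurableSet, lintegral_indicator_one hC.measurableSet,
      lintegral_indicator_one hD.measurableSet] at hPL
    have h1 := ENNReal.toReal_mono hD.measure_lt_top.ne hPL
    rwa [ENNReal.toReal_mul, ← ENNReal.toReal_rpow, ← ENNReal.toReal_rpow] at h1
  · intro x y
    by_cases hx : x ∈ A
    · by_cases hy : y ∈ C
      · rw [indicator_of_mem hx, indicator_of_mem hy, indicator_of_mem (h x hx y hy)]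
        simp
      · rw [indicator_of_notMem hy, ENNReal.zero_rpow_of_pos ht0, mul_zero]
        exact zero_le
    · rw [indicator_of_notMem hx, ENNReal.zero_rpow_of_pos (by linarith), zero_mul]
      exact zero_le

theorem meas_slice {A : Set P3} (hA : IsCompact A) : Measurable fun z => volume (sl A z) :=
  measurable_measure_prodMk_left hA.measurableSet

theorem vol_eq {A : Set P3} (hA : IsCompact A) : volume A = ∫⁻ z, volume (sl A z) := by
  rw [Measure.volume_eq_prod, Measure.prod_apply hA.measurableSet]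
  rfl

theorem ar_meas {A : Set P3} (hA : IsCompact A) : Measurable (ar A) := (meas_slice hA).ennreal_toReal

theorem ar_integrable {A : Set P3} (hA : IsCompact A) : Integrable (ar A) := by
  apply integrable_toReal_of_lintegral_ne_top (meas_slice hA).aemeasurable
  rw [← vol_eq hA]
  exact hA.measure_lt_top.ne

theorem ar_integral {A : Set P3} (hA : IsCompact A) : ∫ z, ar A z = (volume A).toReal := by
  rw [vol_eq hA]
  apply integral_toReal (meas_slice hA).aemeasurable
  exact ae_of_all _ fun z => (sl_compact hA z).measure_lt_top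

/-- the first moment -/
theorem ar_moment {A : Set P3} (hA : IsCompact A) : ∫ x in A, x.1 = ∫ z, z * ar A z := by
  have hi : Integrable (A.indicator fun x : P3 => x.1) := by
    rw [integrable_indicator_iff hA.measurableSet]
    exact continuous_fst.continuousOn.integrableOn_compact hA
  rw [← integral_indicator hA.measurableSet, Measure.volume_eq_prod, integral_prod _ hi]
  congr 1
  ext z
  have h1 : (fun y : Q2 => A.indicator (fun x : P3 => x.1) (z, y)) =
      (sl A z).indicator fun _ => z := by
    ext y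
    by_cases hy : (z, y) ∈ A
    · rw [indicator_of_mem hy, indicator_of_mem (show y ∈ sl A z from hy)]
    · rw [indicator_of_notMem hy, indicator_of_notMem (show y ∉ sl A z from hy)]
  rw [h1, integral_indicator (sl_compact hA z).measurableSet, setIntegral_const, smul_eq_mul,
    mul_comm]
  rfl

/-- the range of heights -/
structure Ht (A : Set P3) (α0 α1 : ℝ) : Prop where
  lt : α0 < α1
  out : ∀ x ∈ A, α0 ≤ x.1 ∧ x.1 ≤ α1
  top : ∃ x ∈ A, x.1 = α1
  pos : ∀ z ∈ Ioo α0 α1, 0 < ar A z
  cont : ContinuousOn (ar A) (Ioo α0 α1)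
  tot : ∫ z in Ioo α0 α1, ar A z = (volume A).toReal
  mom : ∫ z in Ioo α0 α1, z * ar A z = ∫ x in A, x.1

theorem exists_ht {A : Set P3} (hA : IsCompact A) (hc : Convex ℝ A) (hne : (interior A).Nonempty) :
    ∃ α0 α1, Ht A α0 α1 := by
  obtain ⟨o, ho⟩ := hne
  have hAne : A.Nonempty := ⟨o, interior_subset ho⟩
  obtain ⟨p, hp, hpm⟩ := hA.exists_isMinOn hAne continuous_fst.continuousOn
  obtain ⟨q, hq, hqm⟩ := hA.exists_isMaxOn hAne continuous_fst.continuousOn
  have hpm' : ∀ x ∈ A, p.1 ≤ x.1 := fun x hx => hpm hx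
  have hqm' : ∀ x ∈ A, x.1 ≤ q.1 := fun x hx => hqm hx
  -- interior points are strictly between
  have hint : ∀ x ∈ interior A, p.1 < x.1 ∧ x.1 < q.1 := by
    intro x hx
    obtain ⟨ε, hε, hball⟩ := Metric.mem_nhds_iff.1 (mem_interior_iff_mem_nhds.1 hx)
    have h1 : ((x.1 + ε / 2, x.2) : P3) ∈ A := by
      apply hball
      rw [Metric.mem_ball, Prod.dist_eq, dist_self, max_lt_iff, Real.dist_eq]
      refine ⟨?_, hε⟩
      simp only [add_sub_cancel_left]
      rw [abs_of_pos (by linarith)]
      linarith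
    have h2 : ((x.1 - ε / 2, x.2) : P3) ∈ A := by
      apply hball
      rw [Metric.mem_ball, Prod.dist_eq, dist_self, max_lt_iff, Real.dist_eq]
      refine ⟨?_, hε⟩
      simp only [sub_sub_cancel_left, abs_neg]
      rw [abs_of_pos (by linarith)]
      linarith
    have h3 := hqm' _ h1
    have h4 := hpm' _ h2
    simp only at h3 h4
    constructor <;> linarith
  have hlt : p.1 < q.1 := (hint o ho).1.trans (hint o ho).2
  -- interior points at every height
  have hslice : ∀ z ∈ Ioo p.1 q.1, ∃ y, ((z, y) : P3) ∈ interior A := by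
    intro z hz
    have key : ∀ r ∈ A, ∀ w : ℝ, 0 < w → w ≤ 1 → w * o.1 + (1 - w) * r.1 = z →
        ∃ y, ((z, y) : P3) ∈ interior A := by
      intro r hr w hw hw1 hz
      have h1 := hc.combo_interior_self_mem_interior ho hr hw (sub_nonneg.2 hw1) (by ring)
      refine ⟨w • o.2 + (1 - w) • r.2, ?_⟩
      convert h1 using 1
      ext
      · simp [← hz]
      · simp
    rcases le_total z o.1 with h | h
    · have h0 := (hint o ho).1
      apply key p hp ((z - p.1) / (o.1 - p.1)) (div_pos (by linarith [hz.1]) (by linarith))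
        ((div_le_one (by linarith)).2 (by linarith))
      have : o.1 - p.1 ≠ 0 := by linarith
      field_simp
      ring
    · have h0 := (hint o ho).2
      apply key q hq ((q.1 - z) / (q.1 - o.1)) (div_pos (by linarith [hz.2]) (by linarith))
        ((div_le_one (by linarith)).2 (by linarith))
      have : q.1 - o.1 ≠ 0 := by linarith
      field_simp
      ring
  have hpos : ∀ z ∈ Ioo p.1 q.1, 0 < ar A z := by
    intro z hz
    obtain ⟨y, hy⟩ := hslice z hz
    have hopen : IsOpen ((fun y : Q2 => ((z, y) : P3)) ⁻¹' interior A) :=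
      isOpen_interior.preimage (Continuous.prodMk_right z)
    have hsub : ((fun y : Q2 => ((z, y) : P3)) ⁻¹' interior A) ⊆ sl A z := fun y hy =>
      interior_subset (s := A) hy
    apply ENNReal.toReal_pos
    · exact ((hopen.measure_pos volume ⟨y, hy⟩).trans_le (measure_mono hsub)).ne'
    · exact (sl_compact hA z).measure_lt_top.ne
  have hcont : ContinuousOn (ar A) (Ioo p.1 q.1) := by
    have hconc : ConcaveOn ℝ (Ioo p.1 q.1) (fun z => Real.log (ar A z)) := by
      refine ⟨convex_Ioo _ _, ?_⟩
      intro x hx y hy a b ha hb hab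
      rcases hb.eq_or_lt with rfl | hb
      · have : a = 1 := by linarith
        subst this; simp
      rcases ha.eq_or_lt with rfl | ha
      · have : b = 1 := by linarith
        subst this; simp
      have ha' : a = 1 - b := by linarith
      subst ha'
      have h1 := bm_mult (sl_compact hA x) (sl_compact hA y)
        (sl_compact hA ((1 - b) • x + b • y)) hb (by linarith) (fun u hu v hv => by
          have := hc hu hv (sub_nonneg.2 (by linarith : b ≤ 1)) hb.le (by ring)
          simpa [sl] using this)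
      have hxp := hpos x hx
      have hyp := hpos y hy
      have h2 : Real.log (ar A x ^ (1 - b) * ar A y ^ b) =
          (1 - b) • Real.log (ar A x) + b • Real.log (ar A y) := by
        rw [Real.log_mul (Real.rpow_pos_of_pos hxp _).ne' (Real.rpow_pos_of_pos hyp _).ne',
          Real.log_rpow hxp, Real.log_rpow hyp, smul_eq_mul, smul_eq_mul]
      simp only
      rw [← h2]
      exact Real.log_le_log (mul_pos (Real.rpow_pos_of_pos hxp _) (Real.rpow_pos_of_pos hyp _)) h1
    have h1 := hconc.continuousOn isOpen_Ioo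
    have h2 : ContinuousOn (fun z => Real.exp (Real.log (ar A z))) (Ioo p.1 q.1) :=
      Real.continuous_exp.comp_continuousOn h1
    exact h2.congr fun z hz => (Real.exp_log (hpos z hz)).symm
  have hzero : ∀ z, z ∉ Icc p.1 q.1 → ar A z = 0 := by
    intro z hz
    have : sl A z = ∅ := by
      rw [Set.eq_empty_iff_forall_notMem]
      intro y hy
      exact hz ⟨hpm' _ hy, hqm' _ hy⟩
    simp [ar, this]
  have hset : ∀ g : ℝ → ℝ, (∀ z, z ∉ Icc p.1 q.1 → g z = 0) → ∫ z in Ioo p.1 q.1, g z = ∫ z, g z := by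
    intro g hg
    rw [← integral_Icc_eq_integral_Ioo]
    apply setIntegral_eq_integral_of_forall_compl_eq_zero
    exact hg
  refine ⟨p.1, q.1, hlt, fun x hx => ⟨hpm' x hx, hqm' x hx⟩, ⟨q, hq, rfl⟩, hpos, hcont, ?_, ?_⟩
  · rw [hset _ hzero, ar_integral hA]
  · rw [hset _ (fun z hz => by rw [hzero z hz, mul_zero]), ar_moment hA]

/-- the equality case in one direction -/
theorem dir (hSA : S_A) {A B : Set P3} (hA : IsCompact A) (hAc : Convex ℝ A)
    (hAn : (interior A).Nonempty) (hB : IsCompact B) (hBc : Convex ℝ B) (hBn : (interior B).Nonempty)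
    (hV : volume A = volume B) {s : ℝ} (hs0 : 0 < s) (hs1 : s < 1)
    (hle : volume ((1 - s) • A + s • B) ≤ volume A) :
    ∃ c : ℝ, (∃ p ∈ A, ∃ q ∈ B, (∀ x ∈ A, x.1 ≤ p.1) ∧ (∀ x ∈ B, x.1 ≤ q.1) ∧ q.1 = p.1 + c) ∧
      ∫ x in B, x.1 = (∫ x in A, x.1) + c * (volume A).toReal := by
  obtain ⟨α0, α1, HA⟩ := exists_ht hA hAc hAn
  obtain ⟨β0, β1, HB⟩ := exists_ht hB hBc hBn
  set C := (1 - s) • A + s • B with hC
  have hCc : IsCompact C := (hA.smul _).add (hB.smul _)
  have h := hSA (ar A) (ar B) (ar C) α0 α1 β0 β1 s HA.lt HB.lt hs0 hs1 HA.cont HB.cont HA.pos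
    HB.pos (ar_integrable hA).integrableOn (ar_integrable hB).integrableOn
    (by rw [HA.tot, HB.tot, hV]) (ar_integrable hCc) (ar_nonneg C) (fun z hz w hw => by
      apply bm_mult (sl_compact hA z) (sl_compact hB w) (sl_compact hCc _) hs0 hs1
      intro x hx y hy
      refine ⟨(1 - s) • (z, x), smul_mem_smul_set hx, s • (w, y), smul_mem_smul_set hy, ?_⟩
      simp)
    (by
      rw [HA.tot, ar_integral hCc]
      exact ENNReal.toReal_mono hA.measure_lt_top.ne hle)
  obtain ⟨h1, h2⟩ := h
  refine ⟨β0 - α0, ?_, ?_⟩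
  · obtain ⟨p, hp, hp1⟩ := HA.top
    obtain ⟨q, hq, hq1⟩ := HB.top
    refine ⟨p, hp, q, hq, fun x hx => hp1 ▸ (HA.out x hx).2, fun x hx => hq1 ▸ (HB.out x hx).2, ?_⟩
    rw [hp1, hq1, h1]
  · rw [← HB.mom, ← HA.mom, ← HA.tot]
    have h3 : ∫ w in Ioo β0 β1, w * ar B w =
        ∫ z in Ioo α0 α1, (z + (β0 - α0)) * ar B (z + (β0 - α0)) := by
      have h4 : (fun z : ℝ => z + (β0 - α0)) ⁻¹' (Ioo β0 β1) = Ioo α0 α1 := by
        ext z
        simp only [mem_preimage, mem_Ioo]
        constructor <;> rintro ⟨h5, h6⟩ <;> constructor <;> linarith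
      have h5 := (measurePreserving_add_right (volume : Measure ℝ) (β0 - α0)).setIntegral_preimage_emb
        (measurableEmbedding_addRight (β0 - α0)) (fun w => w * ar B w) (Ioo β0 β1)
      rw [h4] at h5
      exact h5.symm
    rw [h3]
    have h4 : ∫ z in Ioo α0 α1, (z + (β0 - α0)) * ar B (z + (β0 - α0)) =
        ∫ z in Ioo α0 α1, (z * ar A z + (β0 - α0) * ar A z) := by
      apply setIntegral_congr_fun measurableSet_Ioo
      intro z hz
      simp only
      rw [h2 z hz]
      ring
    rw [h4, integral_add, integral_const_mul]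
    · have : IntegrableOn (fun z => z * ar A z) (Icc α0 α1) := by
        apply ((ar_integrable hA).integrableOn (s := Icc α0 α1)).continuousOn_mul
          continuous_id.continuousOn isCompact_Icc
      exact this.mono_set Ioo_subset_Icc_self
    · exact ((ar_integrable hA).integrableOn).const_mul _

end Pool.Agent.K4H96.EX
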