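import Mathlib
import Pool.Agent.K4H96.EX.Slice

/-!
# Equality in the Brunn-Minkowski inequality
-/

set_option autoImplicit false

open MeasureTheory Set
open scoped Pointwise ENNReal

namespace Pool.Agent.K4H96.EX

/-- coordinates in which a given functional is the first coordinate -/
theorem exists_coord (l : V →L[ℝ] ℝ) (hl : l ≠ 0) : ∃ e : V ≃L[ℝ] P3, ∀ x, (e x).1 = l x := by
  obtain ⟨w0, hw0⟩ : ∃ w, l w ≠ 0 := by
    by_contra h
    push Not at h
    exact hl (ContinuousLinearMap.ext h)
  set w := (l w0)⁻¹ • w0 with hw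
  have hlw : l w = 1 := by
    rw [hw, map_smul, smul_eq_mul, inv_mul_cancel₀ hw0]
  have hsurj : Function.Surjective l := fun t => ⟨t • w, by rw [map_smul, hlw, smul_eq_mul, mul_one]⟩
  have hker : Module.finrank ℝ (LinearMap.ker l.toLinearMap) = 2 := by
    have h1 := LinearMap.finrank_range_add_finrank_ker l.toLinearMap
    rw [LinearMap.range_eq_top.2 hsurj, finrank_top, Module.finrank_self] at h1
    have h2 : Module.finrank ℝ V = 3 := by simp [V]
    omega
  have hk2 : Module.finrank ℝ (LinearMap.ker l.toLinearMap) = Module.finrank ℝ (Fin 2 → ℝ) := by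
    rw [hker]; simp
  let φ : LinearMap.ker l.toLinearMap ≃ₗ[ℝ] (Fin 2 → ℝ) := LinearEquiv.ofFinrankEq _ _ hk2
  have hmem : ∀ x : V, x - l x • w ∈ LinearMap.ker l.toLinearMap := by
    intro x
    rw [LinearMap.mem_ker]
    simp [hlw]
  let f : V →ₗ[ℝ] P3 :=
    { toFun := fun x => (l x, φ ⟨x - l x • w, hmem x⟩)
      map_add' := by
        intro x y
        ext1
        · simp
        · simp only [Prod.snd_add]
          rw [← map_add]
          congr 1
          ext1
          simp only [Submodule.coe_add, map_add, add_smul]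
          abel
      map_smul' := by
        intro t x
        ext1
        · simp
        · simp only [Prod.smul_snd, RingHom.id_apply]
          rw [← map_smul]
          congr 1
          ext1
          simp only [Submodule.coe_smul, map_smul, smul_sub, smul_smul, smul_eq_mul] }
  have hinj : Function.Injective f := by
    rw [← LinearMap.ker_eq_bot, LinearMap.ker_eq_bot']
    intro x hx
    have h1 : l x = 0 := congrArg Prod.fst hx
    have h2 : φ ⟨x - l x • w, hmem x⟩ = 0 := congrArg Prod.snd hx
    have h3 := φ.map_eq_zero_iff.1 h2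
    have h4 : x - l x • w = 0 := congrArg Subtype.val h3
    rwa [h1, zero_smul, sub_zero] at h4
  have hfr : Module.finrank ℝ V = Module.finrank ℝ P3 := by simp [V, P3]
  let e := LinearMap.linearEquivOfInjective f hinj hfr
  exact ⟨e.toContinuousLinearEquiv, fun x => rfl⟩

/-- linear images: the volumes and the integrals are multiplied by a constant -/
theorem exists_scale (e : V ≃L[ℝ] P3) : ∃ k : ℝ≥0∞, k ≠ 0 ∧ k ≠ ∞ ∧
    (∀ S : Set V, volume (e '' S) = k * volume S) ∧
    ∀ (S : Set V) (g : P3 → ℝ), ∫ x in e '' S, g x = k.toReal * ∫ x in S, g (e x) := by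
  have hH : (Measure.map e (volume : Measure V)).IsAddHaarMeasure := e.isAddHaarMeasure_map volume
  have hP : (volume : Measure P3).IsAddHaarMeasure := by
    rw [Measure.volume_eq_prod]; infer_instance
  have hc' := Measure.isAddLeftInvariant_eq_smul (volume : Measure P3) (Measure.map e (volume : Measure V))
  have hcp := Measure.addHaarScalarFactor_pos_of_isAddHaarMeasure (volume : Measure P3)
    (Measure.map e (volume : Measure V))
  set c := Measure.addHaarScalarFactor (volume : Measure P3) (Measure.map e (volume : Measure V)) with hc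
  have hme : MeasurableEmbedding e := e.toHomeomorph.measurableEmbedding
  refine ⟨(c : ℝ≥0∞), ENNReal.coe_ne_zero.2 hcp.ne', ENNReal.coe_ne_top, fun S => ?_, fun S g => ?_⟩
  · rw [hc', Measure.smul_apply, hme.map_apply, e.injective.preimage_image]
    rfl
  · conv_lhs => rw [hc']
    rw [Measure.restrict_smul, integral_smul_nnreal_measure, hme.setIntegral_map,
      e.injective.preimage_image]
    rfl

/-- the case of equality in every direction -/
theorem dirV (hSA : S_A) {A B : Set V} (hA : IsCompact A) (hAc : Convex ℝ A)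
    (hAn : (interior A).Nonempty) (hB : IsCompact B) (hBc : Convex ℝ B) (hBn : (interior B).Nonempty)
    (hV : volume A = volume B) {s : ℝ} (hs0 : 0 < s) (hs1 : s < 1)
    (hle : volume ((1 - s) • A + s • B) ≤ volume A) (l : V →L[ℝ] ℝ) (hl : l ≠ 0) :
    ∃ c : ℝ, (∃ p ∈ A, ∃ q ∈ B, (∀ x ∈ A, l x ≤ l p) ∧ (∀ x ∈ B, l x ≤ l q) ∧ l q = l p + c) ∧
      ∫ x in B, l x = (∫ x in A, l x) + c * (volume A).toReal := by
  obtain ⟨e, he⟩ := exists_coord l hl
  obtain ⟨k, hk0, hkt, hk1, hk2⟩ := exists_scale e
  have himg : ∀ S : Set V, (interior S).Nonempty → (interior (e '' S)).Nonempty := by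
    intro S hS
    have : e '' interior S = interior (e '' S) := e.toHomeomorph.image_interior S
    rw [← this]
    exact hS.image _
  have hsum : (1 - s) • (e '' A) + s • (e '' B) = e '' ((1 - s) • A + s • B) := by
    rw [Set.image_add]
    simp only [← Set.image_smul, Set.image_image, map_smul]
  obtain ⟨c, ⟨_, ⟨p, hp, rfl⟩, _, ⟨q, hq, rfl⟩, h1, h2, h3⟩, h4⟩ := dir hSA
    (hA.image e.continuous) (hAc.linear_image e.toLinearMap) (himg A hAn)
    (hB.image e.continuous) (hBc.linear_image e.toLinearMap) (himg B hBn)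
    (by rw [hk1, hk1, hV]) hs0 hs1 (by
      rw [hsum, hk1, hk1]
      gcongr)
  refine ⟨c, ⟨p, hp, q, hq, fun x hx => ?_, fun x hx => ?_, ?_⟩, ?_⟩
  · have := h1 (e x) ⟨x, hx, rfl⟩
    rwa [he, he] at this
  · have := h2 (e x) ⟨x, hx, rfl⟩
    rwa [he, he] at this
  · rwa [he, he] at h3
  · rw [hk2, hk2, hk1, ENNReal.toReal_mul] at h4
    simp only [he] at h4
    have hk : k.toReal ≠ 0 := (ENNReal.toReal_pos hk0 hkt).ne'
    have h5 : k.toReal * ∫ x in B, l x =
        k.toReal * ((∫ x in A, l x) + c * (volume A).toReal) := by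
      rw [h4]; ring
    exact mul_left_cancel₀ hk h5

theorem s_bm (hSA : S_A) : S_BM := by
  intro A B hA hAc hAn hB hBc hBn hV s hs0 hs1 hle
  have hdir := dirV hSA hA hAc hAn hB hBc hBn hV hs0 hs1 hle
  have hvol : 0 < (volume A).toReal := by
    apply ENNReal.toReal_pos
    · exact ((isOpen_interior.measure_pos volume hAn).trans_le (measure_mono interior_subset)).ne'
    · exact hA.measure_lt_top.ne
  obtain ⟨a0, ha0⟩ := hAn
  obtain ⟨b0, hb0⟩ := hBn
  set v : V := (volume A).toReal⁻¹ • ((∫ x in B, x) - ∫ x in A, x) with hv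
  have hlv : ∀ (l : V →L[ℝ] ℝ) (c : ℝ), ∫ x in B, l x = (∫ x in A, l x) + c * (volume A).toReal →
      l v = c := by
    intro l c h
    have h1 : ∫ x in B, l x = l (∫ x in B, x) :=
      l.integral_comp_comm (continuous_id.continuousOn.integrableOn_compact hB)
    have h2 : ∫ x in A, l x = l (∫ x in A, x) :=
      l.integral_comp_comm (continuous_id.continuousOn.integrableOn_compact hA)
    rw [hv, map_smul, map_sub, ← h1, ← h2, h, smul_eq_mul]
    field_simp
    ring
  refine ⟨v, Subset.antisymm ?_ ?_⟩
  · intro x hx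
    by_contra hcon
    have hxv : x - v ∉ A := fun h => hcon ⟨x - v, h, sub_add_cancel x v⟩
    obtain ⟨f, u, hf1, hf2⟩ := geometric_hahn_banach_closed_point hAc hA.isClosed hxv
    have hf0 : f ≠ 0 := by
      rintro rfl
      have := hf1 a0 (interior_subset ha0)
      simp only [zero_apply] at this hf2
      linarith
    obtain ⟨c, ⟨p, hp, q, hq, h1, h2, h3⟩, h4⟩ := hdir f hf0
    have h5 := hlv f c h4
    have h6 := h2 x hx
    have h7 := hf1 p hp
    rw [map_sub] at hf2
    linarith
  · rintro _ ⟨y, hy, rfl⟩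
    by_contra hcon
    obtain ⟨f, u, hf1, hf2⟩ := geometric_hahn_banach_closed_point hBc hB.isClosed hcon
    have hf0 : f ≠ 0 := by
      rintro rfl
      have := hf1 b0 (interior_subset hb0)
      simp only [zero_apply] at this hf2
      linarith
    obtain ⟨c, ⟨p, hp, q, hq, h1, h2, h3⟩, h4⟩ := hdir f hf0
    have h5 := hlv f c h4
    have h6 := h1 y hy
    have h7 := hf1 q hq
    simp only [map_add] at hf2
    linarith

end Pool.Agent.K4H96.EX
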