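import Mathlib
import Pool.Agent.K4H96.EX.Spec

/-!
# Module C: gluing of convexity from open cones

(Formalised by helper32.)
-/

set_option autoImplicit false
set_option linter.unusedVariables false

open Set
open scoped Matrix

namespace Pool.Agent.K4H96.EX

/-- local to global, with midpoints only -/
lemma conv_of_mid {φ : ℝ → ℝ} (hφ : Continuous φ)
    (hm : ∀ t ∈ Ioo (0 : ℝ) 1, ∃ δ > 0, 0 ≤ t - δ ∧ t + δ ≤ 1 ∧ 2 * φ t ≤ φ (t - δ) + φ (t + δ)) :
    ∀ t ∈ Icc (0 : ℝ) 1, φ t ≤ (1 - t) * φ 0 + t * φ 1 := by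
  intro t1 ht1
  by_contra hcon
  push Not at hcon
  let ψ : ℝ → ℝ := fun t => φ t - ((1 - t) * φ 0 + t * φ 1)
  have hψ : Continuous ψ := by fun_prop
  have hψ0 : ψ 0 = 0 := by simp [ψ]
  have hψ1 : ψ 1 = 0 := by simp [ψ]
  have hψt : 0 < ψ t1 := by simp only [ψ]; linarith
  obtain ⟨s, hs, hsmax⟩ := isCompact_Icc.exists_isMaxOn (nonempty_Icc.2 zero_le_one) hψ.continuousOn
  have hM : 0 < ψ s := hψt.trans_le (hsmax ht1)
  have hcomp : IsCompact {t : ℝ | t ∈ Icc (0 : ℝ) 1 ∧ ψ t = ψ s} :=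
    isCompact_Icc.inter_right (isClosed_eq hψ continuous_const)
  obtain ⟨m, ⟨hm1, hm2⟩, hleast⟩ := hcomp.exists_isLeast ⟨s, hs, rfl⟩
  have hm0 : m ∈ Ioo (0 : ℝ) 1 := by
    refine ⟨lt_of_le_of_ne hm1.1 ?_, lt_of_le_of_ne hm1.2 ?_⟩
    · rintro rfl
      rw [hψ0] at hm2
      linarith
    · rintro rfl
      rw [hψ1] at hm2
      linarith
  obtain ⟨δ, hδ, h0, h1, h2⟩ := hm m hm0
  have h3 : 2 * ψ m ≤ ψ (m - δ) + ψ (m + δ) := by
    simp only [ψ]
    linarith
  have h4 : ψ (m + δ) ≤ ψ s := hsmax ⟨by linarith [hm0.1], h1⟩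
  have h5 : ψ (m - δ) ≤ ψ s := hsmax ⟨h0, by linarith [hm0.2]⟩
  have h6 : ψ (m - δ) ≠ ψ s := by
    intro h
    have h7 := hleast ⟨⟨h0, by linarith [hm0.2]⟩, h⟩
    linarith
  have h7 := lt_of_le_of_ne h5 h6
  linarith

lemma continuous_nrm : Continuous nrm := by
  unfold nrm
  simp only [dotProduct]
  fun_prop

lemma nrm_pos {x : V} (hx : x ≠ 0) : 0 < nrm x := by
  unfold nrm
  apply Real.sqrt_pos.2
  have h1 : 0 ≤ x ⬝ᵥ x := by
    rw [dotProduct]
    exact Finset.sum_nonneg fun i _ => mul_self_nonneg _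
  refine lt_of_le_of_ne h1 fun h => hx ?_
  exact dotProduct_self_eq_zero.1 h.symm

lemma continuous_dot (u : V) : Continuous fun x : V => x ⬝ᵥ u := by
  simp only [dotProduct]
  fun_prop

/-- the midpoint inequality on an open set on which the function is convex -/
lemma mid_of_open {f : V → ℝ} {U : Set V} (hU : IsOpen U) {p d : V} (hp : p ∈ U)
    (hf : ∀ a ∈ U, ∀ b ∈ U, (1 / 2 : ℝ) • a + (1 / 2 : ℝ) • b = p → 2 * f p ≤ f a + f b) :
    ∃ δ0 > (0 : ℝ), ∀ δ : ℝ, 0 ≤ δ → δ < δ0 → 2 * f p ≤ f (p - δ • d) + f (p + δ • d) := by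
  have h1 : ∀ᶠ δ : ℝ in nhds 0, p - δ • d ∈ U ∧ p + δ • d ∈ U := by
    have hc1 : Continuous fun δ : ℝ => p - δ • d := by fun_prop
    have hc2 : Continuous fun δ : ℝ => p + δ • d := by fun_prop
    have h2 := hc1.continuousAt (x := (0 : ℝ))
    have h3 := hc2.continuousAt (x := (0 : ℝ))
    refine (h2.eventually_mem (hU.mem_nhds (by simpa using hp))).and
      (h3.eventually_mem (hU.mem_nhds (by simpa using hp)))
  rw [Metric.eventually_nhds_iff] at h1
  obtain ⟨δ0, hδ0, h2⟩ := h1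
  refine ⟨δ0, hδ0, fun δ hδ hδ' => ?_⟩
  obtain ⟨h3, h4⟩ := h2 (y := δ) (by rwa [Real.dist_eq, sub_zero, abs_of_nonneg hδ])
  refine hf _ h3 _ h4 ?_
  rw [smul_sub, smul_add]
  have : (1 / 2 : ℝ) • p - (1 / 2 : ℝ) • δ • d + ((1 / 2 : ℝ) • p + (1 / 2 : ℝ) • δ • d) =
      ((1 / 2 : ℝ) + 1 / 2) • p := by
    rw [add_smul]; abel
  rw [this]
  norm_num

theorem s_c : S_C := by
  intro f h u c c' hu hc hcc hc' hf hhom hodd hh hfh hp hn
  have mid : ∀ p d : V, ∃ δ0 > (0 : ℝ), ∀ δ : ℝ, 0 ≤ δ → δ < δ0 → 2 * f p ≤ f (p - δ • d) + f (p + δ • d) := by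
    intro p d
    by_cases hp0 : p = 0
    · subst hp0
      refine ⟨1, one_pos, fun δ _ _ => ?_⟩
      have h0 : f 0 = 0 := by
        have := hhom 0 le_rfl 0
        simpa using this
      rw [h0, zero_sub, zero_add, mul_zero]
      linarith [hodd (δ • d)]
    · have hpn := nrm_pos hp0
      have key : ∀ (U : Set V), Convex ℝ U → ConvexOn ℝ U f → ∀ a ∈ U, ∀ b ∈ U,
          (1 / 2 : ℝ) • a + (1 / 2 : ℝ) • b = p → 2 * f p ≤ f a + f b := by
        intro U _ hU a ha b hb hab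
        have h1 := hU.2 ha hb (show (0 : ℝ) ≤ 1 / 2 by norm_num) (show (0 : ℝ) ≤ 1 / 2 by norm_num)
          (by norm_num)
        rw [hab] at h1
        simp only [smul_eq_mul] at h1
        linarith
      rcases lt_or_ge |p ⬝ᵥ u| (c' * nrm p) with h1 | h1
      · refine mid_of_open (U := {x : V | |x ⬝ᵥ u| < c' * nrm x})
          (isOpen_lt (continuous_dot u).abs (continuous_const.mul continuous_nrm)) h1 ?_
        intro a ha b hb hab
        rw [hfh a (le_of_lt ha), hfh b (le_of_lt hb), hfh p h1.le]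
        have h2 := hh.2 (mem_univ a) (mem_univ b) (show (0 : ℝ) ≤ 1 / 2 by norm_num)
          (show (0 : ℝ) ≤ 1 / 2 by norm_num) (by norm_num)
        rw [hab] at h2
        simp only [smul_eq_mul] at h2
        linarith
      · have h2 : c * nrm p < |p ⬝ᵥ u| := lt_of_lt_of_le (by nlinarith) h1
        rcases lt_abs.1 h2 with h3 | h3
        · exact mid_of_open (U := {x : V | c * nrm x < x ⬝ᵥ u})
            (isOpen_lt (continuous_const.mul continuous_nrm) (continuous_dot u)) h3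
            (key _ hp.1 hp)
        · exact mid_of_open (U := {x : V | c * nrm x < -(x ⬝ᵥ u)})
            (isOpen_lt (continuous_const.mul continuous_nrm) (continuous_dot u).neg) h3
            (key _ hn.1 hn)
  refine ⟨convex_univ, ?_⟩
  intro x _ y _ a b ha hb hab
  have h1 := conv_of_mid (φ := fun t => f (x + t • (y - x))) (by fun_prop) (by
    intro t ht
    obtain ⟨δ0, hδ0, h2⟩ := mid (x + t • (y - x)) (y - x)
    have hmin : 0 < min (δ0 / 2) (min t (1 - t)) :=
      lt_min (by linarith) (lt_min ht.1 (by linarith [ht.2]))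
    refine ⟨min (δ0 / 2) (min t (1 - t)), hmin, ?_, ?_, ?_⟩
    · have := (min_le_right (δ0 / 2) (min t (1 - t))).trans (min_le_left _ _)
      linarith
    · have := (min_le_right (δ0 / 2) (min t (1 - t))).trans (min_le_right _ _)
      linarith
    · have h3 := h2 _ hmin.le ((min_le_left _ _).trans_lt (by linarith))
      have h4 : ∀ s : ℝ, x + (t - s) • (y - x) = x + t • (y - x) - s • (y - x) := by
        intro s; rw [sub_smul]; abel
      have h5 : ∀ s : ℝ, x + (t + s) • (y - x) = x + t • (y - x) + s • (y - x) := by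
        intro s; rw [add_smul]; abel
      simp only [h4, h5]
      exact h3) b ⟨hb, by linarith⟩
  have h2 : x + b • (y - x) = a • x + b • y := by
    have : a = 1 - b := by linarith
    rw [this, sub_smul, smul_sub, one_smul]; abel
  have h3 : x + (0 : ℝ) • (y - x) = x := by simp
  have h4 : x + (1 : ℝ) • (y - x) = y := by simp
  have h5 : 1 - b = a := by linarith
  simp only [h2, h3, h4, h5] at h1
  simpa only [smul_eq_mul] using h1

end Pool.Agent.K4H96.EX
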