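import Mathlib
import Pool.Agent.K4H96.EX.Spec
import Pool.Agent.K4H96.MD.DLForm

/-!
# `δ_T` and `δ_L` of bodies with the same difference body
-/

set_option autoImplicit false

open MeasureTheory Filter Topology
open scoped ENNReal Pointwise

namespace Pool.Agent.K4H96.EX

open Pool.Agent.H349R2.Tet (Bl bl_add bl_neg bl_measurable bl_smul vol_bl_one_pos vol_bl_one_lt_top lat)
open Pool.Agent.TH219.DL (mem IsPack den famL dL dT Body mn)

theorem vol_bl' {s : ℝ} (hs : 0 < s) : volume (Bl s) = ENNReal.ofReal (s ^ 3) * volume (Bl 1) := by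
  rw [bl_smul hs, Measure.addHaar_smul]
  congr 2
  simp [abs_of_pos hs]

theorem vol_mem (K : Set V) (p : Bool × V) : volume (mem K p) = volume K := by
  unfold mem
  have h1 : (fun x : V => (if p.1 = true then -x else x) + p.2) '' K =
      (fun x : V => x + p.2) '' ((fun x : V => if p.1 = true then -x else x) '' K) := by
    rw [Set.image_image]
  rw [h1]
  have h2 : (fun x : V => x + p.2) '' ((fun x : V => if p.1 = true then -x else x) '' K) =
      (fun x : V => x + -p.2) ⁻¹' ((fun x : V => if p.1 = true then -x else x) '' K) := by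
    rw [Set.image_add_right]
  rw [h2, measure_preimage_add_right]
  by_cases h : p.1 = true
  · simp only [h, if_true]
    rw [Set.image_neg_eq_neg, Measure.measure_neg]
  · simp only [h]
    simp

theorem mem_compact {K : Set V} (hK : IsCompact K) (p : Bool × V) : IsCompact (mem K p) := by
  apply hK.image
  by_cases h : p.1 = true
  · simp only [h, if_true]; fun_prop
  · simp only [h]
    have : Continuous fun x : V => x + p.2 := by fun_prop
    simpa using this

theorem exists_R {K : Set V} (hK : IsCompact K) : ∃ R : ℝ, 0 < R ∧ K ⊆ Bl R := by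
  obtain ⟨R, hR⟩ := hK.isBounded.subset_closedBall 0
  refine ⟨2 * max R 1, by positivity, fun x hx => ?_⟩
  apply Pool.Agent.H349R2.Tet.ball_subset_bl _ (by positivity)
  exact Metric.closedBall_subset_closedBall (le_max_left _ _) (hR hx)

theorem bl_mono {r s : ℝ} (hr : 0 ≤ r) (h : r ≤ s) : Bl r ⊆ Bl s := by
  intro x hx
  simp only [Bl, Set.mem_ofPred_eq] at *
  nlinarith

/-- the number of the members with index in `S` and translation in the ball -/
noncomputable def cnt (S : Set (Bool × V)) (r : ℝ) : ℝ≥0∞ :=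
  ∑' p : S, (Bl r).indicator (fun _ => (1 : ℝ≥0∞)) p.1.2

theorem le_cnt {K : Set V} {R : ℝ} (hR : 0 ≤ R) (hKR : K ⊆ Bl R) (S : Set (Bool × V)) {r : ℝ}
    (hr : 0 ≤ r) : ∑' p : S, volume (mem K p.1 ∩ Bl r) ≤ volume K * cnt S (r + R) := by
  unfold cnt
  rw [← ENNReal.tsum_mul_left]
  refine ENNReal.tsum_le_tsum fun p => ?_
  by_cases h : p.1.2 ∈ Bl (r + R)
  · rw [Set.indicator_of_mem h, mul_one, ← vol_mem K p.1]
    exact measure_mono Set.inter_subset_left
  · have : mem K p.1 ∩ Bl r = ∅ := by
      rw [Set.eq_empty_iff_forall_notMem]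
      rintro _ ⟨⟨x, hx, rfl⟩, h2⟩
      apply h
      have h3 : (-(if p.1.1 = true then -x else x)) ∈ Bl R := by
        split_ifs
        · rw [neg_neg]; exact hKR hx
        · exact bl_neg (hKR hx)
      have h4 := bl_add hr hR h2 h3
      simpa using h4
    rw [this, measure_empty]
    exact zero_le

theorem cnt_le {K : Set V} {R : ℝ} (hR : 0 ≤ R) (hKR : K ⊆ Bl R) (S : Set (Bool × V)) {r : ℝ}
    (hr : 0 ≤ r) : volume K * cnt S r ≤ ∑' p : S, volume (mem K p.1 ∩ Bl (r + R)) := by
  unfold cnt
  rw [← ENNReal.tsum_mul_left]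
  refine ENNReal.tsum_le_tsum fun p => ?_
  by_cases h : p.1.2 ∈ Bl r
  · rw [Set.indicator_of_mem h, mul_one, ← vol_mem K p.1]
    apply measure_mono
    rintro _ ⟨x, hx, rfl⟩
    refine ⟨⟨x, hx, rfl⟩, ?_⟩
    have h3 : (if p.1.1 = true then -x else x) ∈ Bl R := by
      split_ifs
      · exact bl_neg (hKR hx)
      · exact hKR hx
    have h4 := bl_add hR hr h3 h
    rw [add_comm R r] at h4
    exact h4
  · rw [Set.indicator_of_notMem h, mul_zero]
    exact zero_le

theorem le_of_mul {X Y : ℝ≥0∞} (h : ∀ ρ : ℝ, 1 < ρ → X ≤ ENNReal.ofReal ρ * Y) : X ≤ Y := by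
  have h1 : Tendsto (fun ρ : ℝ => ENNReal.ofReal ρ * Y) (𝓝[>] 1) (𝓝 (ENNReal.ofReal 1 * Y)) := by
    apply ENNReal.Tendsto.mul_const
    · exact (ENNReal.tendsto_ofReal tendsto_id).mono_left nhdsWithin_le_nhds
    · left; simp
  rw [ENNReal.ofReal_one, one_mul] at h1
  apply ge_of_tendsto h1
  filter_upwards [self_mem_nhdsWithin] with ρ hρ using h ρ hρ

/-- densities of the same family of translations for two bodies -/
theorem den_le {K K' : Set V} (hK : IsCompact K) (hK' : IsCompact K') (h0 : volume K ≠ 0)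
    (S : Set (Bool × V)) : den K' S ≤ volume K' / volume K * den K S := by
  obtain ⟨R1, hR1, h1⟩ := exists_R hK
  obtain ⟨R2, hR2, h2⟩ := exists_R hK'
  set R := max R1 R2 with hR
  have hRpos : 0 < R := lt_max_of_lt_left hR1
  replace h1 : K ⊆ Bl R := h1.trans (bl_mono hR1.le (le_max_left _ _))
  replace h2 : K' ⊆ Bl R := h2.trans (bl_mono hR2.le (le_max_right _ _))
  have hb1 : volume (Bl 1) ≠ 0 := vol_bl_one_pos.ne'
  have hb2 : volume (Bl 1) ≠ ∞ := vol_bl_one_lt_top.ne
  have hκ : volume K ≠ ∞ := hK.measure_lt_top.ne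
  have hκ' : volume K' ≠ ∞ := hK'.measure_lt_top.ne
  have hq : volume K' / volume K ≠ ∞ := ENNReal.div_ne_top hκ' h0
  apply le_of_mul
  intro ρ hρ
  have hρ0 : ENNReal.ofReal ρ ≠ ∞ := ENNReal.ofReal_ne_top
  -- eventually the quotient of the volumes of the balls is at most `ρ`
  have hev : ∀ᶠ r : ℝ in atTop, 0 < r ∧ (r + 2 * R) ^ 3 ≤ ρ * r ^ 3 := by
    have hlim : Tendsto (fun r : ℝ => (1 + 2 * R / r) ^ 3) atTop (𝓝 ((1 + 0) ^ 3)) :=
      ((tendsto_const_nhds.add (tendsto_const_nhds.div_atTop tendsto_id))).pow 3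
    have hlt : ((1 : ℝ) + 0) ^ 3 < ρ := by norm_num; exact hρ
    filter_upwards [eventually_gt_atTop 0, hlim.eventually_lt_const hlt] with r hr h
    refine ⟨hr, ?_⟩
    have h3 : (r + 2 * R) ^ 3 = (1 + 2 * R / r) ^ 3 * r ^ 3 := by
      field_simp
    rw [h3]
    exact mul_le_mul_of_nonneg_right h.le (by positivity)
  calc den K' S ≤ limsup (fun r : ℝ => (volume K' / volume K * ENNReal.ofReal ρ) *
        ((∑' p : S, volume (mem K p.1 ∩ Bl (r + 2 * R))) / volume (Bl (r + 2 * R)))) atTop := by
        apply limsup_le_limsup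
        · filter_upwards [hev] with r ⟨hr, hr3⟩
          have e1 := le_cnt hRpos.le h2 S hr.le
          have e2 := cnt_le hRpos.le h1 S (r := r + R) (by linarith)
          rw [show r + R + R = r + 2 * R by ring] at e2
          set A := ∑' p : S, volume (mem K p.1 ∩ Bl (r + 2 * R)) with hA
          have e3 : cnt S (r + R) ≤ A / volume K := by
            rw [ENNReal.le_div_iff_mul_le (Or.inl h0) (Or.inl hκ), mul_comm]
            exact e2
          have e4 : volume (Bl (r + 2 * R)) ≤ ENNReal.ofReal ρ * volume (Bl r) := by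
            rw [vol_bl' (by linarith : (0 : ℝ) < r + 2 * R), vol_bl' hr, ← mul_assoc,
              ← ENNReal.ofReal_mul (by linarith)]
            gcongr
          have hbr : volume (Bl r) ≠ 0 := by
            rw [vol_bl' hr]
            exact mul_ne_zero (ENNReal.ofReal_pos.2 (by positivity)).ne' hb1
          have hbr' : volume (Bl r) ≠ ∞ := by
            rw [vol_bl' hr]
            exact ENNReal.mul_ne_top ENNReal.ofReal_ne_top hb2
          have hbs : volume (Bl (r + 2 * R)) ≠ 0 := by
            rw [vol_bl' (by linarith)]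
            exact mul_ne_zero (ENNReal.ofReal_pos.2 (by positivity)).ne' hb1
          have hbs' : volume (Bl (r + 2 * R)) ≠ ∞ := by
            rw [vol_bl' (by linarith)]
            exact ENNReal.mul_ne_top ENNReal.ofReal_ne_top hb2
          calc (∑' p : S, volume (mem K' p.1 ∩ Bl r)) / volume (Bl r)
              ≤ (volume K' * (A / volume K)) / volume (Bl r) := by gcongr; exact e1.trans (by gcongr)
            _ = volume K' / volume K * (A / volume (Bl r)) := by
                simp only [div_eq_mul_inv]; ring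
            _ ≤ volume K' / volume K * (ENNReal.ofReal ρ * (A / volume (Bl (r + 2 * R)))) := by
                gcongr
                rw [← mul_div_assoc, ENNReal.le_div_iff_mul_le (Or.inl hbs) (Or.inl hbs')]
                calc A / volume (Bl r) * volume (Bl (r + 2 * R))
                    ≤ A / volume (Bl r) * (ENNReal.ofReal ρ * volume (Bl r)) := by gcongr
                  _ = ENNReal.ofReal ρ * (A / volume (Bl r) * volume (Bl r)) := by ring
                  _ = ENNReal.ofReal ρ * A := by rw [ENNReal.div_mul_cancel hbr hbr']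
            _ = _ := by rw [mul_assoc]
        · isBoundedDefault
        · isBoundedDefault
    _ = (volume K' / volume K * ENNReal.ofReal ρ) * limsup (fun r : ℝ =>
        (∑' p : S, volume (mem K p.1 ∩ Bl (r + 2 * R))) / volume (Bl (r + 2 * R))) atTop :=
        ENNReal.limsup_const_mul_of_ne_top (ENNReal.mul_ne_top hq hρ0)
    _ ≤ (volume K' / volume K * ENNReal.ofReal ρ) * den K S := by
        gcongr
        unfold den
        have h5 : Tendsto (fun r : ℝ => r + 2 * R) atTop atTop :=
          tendsto_atTop_add_const_right _ _ tendsto_id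
        exact limsup_le_limsup_of_le (f := map (fun r : ℝ => r + 2 * R) atTop) (g := atTop) h5
          (u := fun r => (∑' p : S, volume (mem K p.1 ∩ Bl r)) / volume (Bl r))
    _ = ENNReal.ofReal ρ * (volume K' / volume K * den K S) := by ring

end Pool.Agent.K4H96.EX
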