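import Mathlib
import Pool.Agent.K4H96.EX.Dens
import Pool.Agent.K4H96.EX.BMEq

/-!
# Bodies with the same difference body: comparison of `δ_T` and `δ_L`
-/

set_option autoImplicit false

open MeasureTheory Filter Topology
open scoped ENNReal Pointwise

namespace Pool.Agent.K4H96.EX

open Pool.Agent.TH219.DL (mem IsPack den famL dL dT Body mn)

theorem vol_ne_zero {K : Set V} (hK : Body K) : volume K ≠ 0 :=
  ((isOpen_interior.measure_pos volume hK.2.2).trans_le (measure_mono interior_subset)).ne'

/-- the interior of the difference body -/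
theorem mem_interior_sub {K : Set V} (hK : Body K) {z : V} :
    z ∈ interior (K - K) ↔ ∃ x ∈ interior K, ∃ y ∈ interior K, z = x - y := by
  obtain ⟨hc, hv, k, hk⟩ := hK
  constructor
  · intro hz
    have h1 : Tendsto (fun t : ℝ => (1 + t) • z) (𝓝 0) (𝓝 ((1 + 0 : ℝ) • z)) :=
      ((tendsto_const_nhds.add tendsto_id).smul_const z)
    rw [add_zero, one_smul] at h1
    have h2 := h1.eventually_mem (isOpen_interior.mem_nhds hz)
    have h3 : ∀ᶠ t : ℝ in 𝓝[>] 0, (1 + t) • z ∈ interior (K - K) :=
      h2.filter_mono nhdsWithin_le_nhds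
    obtain ⟨t, ht, ht0⟩ := (h3.and self_mem_nhdsWithin).exists
    have ht0 : 0 < t := ht0
    obtain ⟨x, hx, y, hy, hxy⟩ := interior_subset ht
    have hxy : x - y = (1 + t) • z := hxy
    have h4 : (1 : ℝ) / (1 + t) + t / (1 + t) = 1 := by field_simp
    refine ⟨(1 / (1 + t)) • x + (t / (1 + t)) • k, ?_, (1 / (1 + t)) • y + (t / (1 + t)) • k, ?_, ?_⟩
    · exact hv.combo_self_interior_mem_interior hx hk (by positivity) (by positivity) h4
    · exact hv.combo_self_interior_mem_interior hy hk (by positivity) (by positivity) h4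
    · rw [add_sub_add_right_eq_sub, ← smul_sub, hxy, smul_smul, one_div,
        inv_mul_cancel₀ (by positivity), one_smul]
  · rintro ⟨x, hx, y, hy, rfl⟩
    have h1 : interior K - interior K ⊆ interior (K - K) := by
      apply interior_maximal (Set.sub_subset_sub interior_subset interior_subset)
      exact isOpen_interior.sub_right
    exact h1 ⟨x, hx, y, hy, rfl⟩

theorem interior_mem (K : Set V) (p : Bool × V) (hp : p.1 = false) (x : V) :
    x ∈ interior (mem K p) ↔ x - p.2 ∈ interior K := by
  have h1 : mem K p = (Homeomorph.addRight p.2) '' K := by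
    unfold mem
    rw [hp]
    simp
  rw [h1, ← (Homeomorph.addRight p.2).image_interior]
  constructor
  · rintro ⟨y, hy, rfl⟩
    simpa using hy
  · intro h
    exact ⟨x - p.2, h, by simp⟩

theorem pack_iff {K : Set V} (hK : Body K) {S : Set (Bool × V)} (hS : ∀ p ∈ S, p.1 = false) :
    IsPack K S ↔ ∀ p ∈ S, ∀ q ∈ S, p ≠ q → p.2 - q.2 ∉ interior (K - K) := by
  unfold IsPack
  refine forall₂_congr fun p hp => forall₂_congr fun q hq => imp_congr_right fun _ => ?_
  rw [mem_interior_sub hK, Set.disjoint_left]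
  constructor
  · rintro h ⟨x, hx, y, hy, hxy⟩
    have h1 : p.2 + y = q.2 + x := by
      have : p.2 = q.2 + (x - y) := by rw [← hxy]; abel
      rw [this]; abel
    apply h (a := p.2 + y)
    · rw [interior_mem K p (hS p hp)]; simpa using hy
    · rw [interior_mem K q (hS q hq), h1]; simpa using hx
  · rintro h a ha hb
    rw [interior_mem K p (hS p hp)] at ha
    rw [interior_mem K q (hS q hq)] at hb
    exact h ⟨a - q.2, hb, a - p.2, ha, by abel⟩

variable {K K' : Set V}

theorem dT_le (hK : Body K) (hK' : Body K') (h : K' - K' = K - K) :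
    dT K' ≤ volume K' / volume K * dT K := by
  unfold dT
  refine iSup₂_le fun S hS => ?_
  refine (den_le hK.1 hK'.1 (vol_ne_zero hK) S).trans ?_
  gcongr
  refine le_iSup₂ (f := fun S (_ : (∀ p ∈ S, p.1 = false) ∧ IsPack K S) => den K S) S ⟨hS.1, ?_⟩
  rw [pack_iff hK hS.1, ← h]
  exact (pack_iff hK' hS.1).1 hS.2

theorem famL_false (b : Fin 3 → V) : ∀ p ∈ famL b, p.1 = false := fun _ hp => hp.1

theorem dL_le (hK : Body K) (hK' : Body K') (h : K' - K' = K - K) :
    dL K' ≤ volume K' / volume K * dL K := by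
  unfold dL
  refine iSup₂_le fun b hb => ?_
  refine (den_le hK.1 hK'.1 (vol_ne_zero hK) (famL b)).trans ?_
  gcongr
  refine le_iSup₂ (f := fun b (_ : LinearIndependent ℝ b ∧ IsPack K (famL b)) =>
    den K (famL b)) b ⟨hb.1, ?_⟩
  rw [pack_iff hK (famL_false b), ← h]
  exact (pack_iff hK' (famL_false b)).1 hb.2

theorem dL_le_dT (K : Set V) : dL K ≤ dT K := by
  unfold dL dT
  refine iSup₂_le fun b hb => ?_
  exact le_iSup₂ (f := fun S (_ : (∀ p ∈ S, p.1 = false) ∧ IsPack K S) => den K S) (famL b)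
    ⟨famL_false b, hb.2⟩

/-- the density of a packing by translates is at most one -/
theorem den_le_one (hK : Body K) {S : Set (Bool × V)} (hS : IsPack K S) : den K S ≤ 1 := by
  unfold den
  have hb : ∀ r : ℝ, (∑' p : S, volume (mem K p.1 ∩ Pool.Agent.H349R2.Tet.Bl r)) /
      volume (Pool.Agent.H349R2.Tet.Bl r) ≤ 1 := by
    intro r
    apply ENNReal.div_le_of_le_mul
    rw [one_mul]
    have h1 : ∀ p : S, volume (mem K p.1 ∩ Pool.Agent.H349R2.Tet.Bl r) =
        volume (interior (mem K p.1) ∩ Pool.Agent.H349R2.Tet.Bl r) := by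
      intro p
      apply measure_congr
      have hcv : Convex ℝ (mem K p.1) := by
        unfold mem
        by_cases hp : p.1.1 = true
        · simp only [hp, if_true]
          have : (fun x : V => -x + p.1.2) '' K = (fun x => x + p.1.2) '' ((fun x : V => -x) '' K) := by
            rw [Set.image_image]
          rw [this]
          have h2 : Convex ℝ ((fun x : V => -x) '' K) := by
            rw [Set.image_neg_eq_neg]; exact hK.2.1.neg
          have := h2.translate p.1.2
          simpa [add_comm] using this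
        · simp only [hp]
          have := hK.2.1.translate p.1.2
          simpa [add_comm] using this
      have hfr : volume (frontier (mem K p.1)) = 0 := hcv.addHaar_frontier volume
      have h3 : (interior (mem K p.1) : Set V) =ᵐ[volume] (mem K p.1 : Set V) :=
        interior_ae_eq_of_null_frontier hfr
      exact (h3.inter (ae_eq_refl _)).symm
    rw [tsum_congr h1]
    calc ∑' p : S, volume (interior (mem K p.1) ∩ Pool.Agent.H349R2.Tet.Bl r)
        ≤ volume (⋃ p : S, (interior (mem K p.1) ∩ Pool.Agent.H349R2.Tet.Bl r)) := by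
          apply tsum_meas_le_meas_iUnion_of_disjoint
          · intro p
            exact isOpen_interior.measurableSet.inter (Pool.Agent.H349R2.Tet.bl_measurable r)
          · intro p q hpq
            exact (hS p.1 p.2 q.1 q.2 (fun e => hpq (Subtype.ext e))).mono
              Set.inter_subset_left Set.inter_subset_left
      _ ≤ volume (Pool.Agent.H349R2.Tet.Bl r) :=
          measure_mono (Set.iUnion_subset fun p => Set.inter_subset_right)
  calc limsup _ atTop ≤ limsup (fun _ : ℝ => (1 : ℝ≥0∞)) atTop :=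
        limsup_le_limsup (Eventually.of_forall hb)
    _ = 1 := limsup_const 1

theorem dT_ne_top (hK : Body K) : dT K ≠ ∞ := by
  have : dT K ≤ 1 := by
    unfold dT
    exact iSup₂_le fun S hS => den_le_one hK hS.2
  exact ne_top_of_le_ne_top ENNReal.one_ne_top this

theorem strict {a b : ℝ≥0∞} (hK : Body K) (hK' : Body K') (hlt : volume K' < volume K)
    (h0 : b ≠ 0) (ht : b ≠ ∞) (h : a ≤ volume K' / volume K * b) : a < b := by
  have h1 : volume K' / volume K < 1 := by
    apply (ENNReal.div_lt_iff (Or.inl (vol_ne_zero hK)) (Or.inl hK.1.measure_lt_top.ne)).2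
    rwa [one_mul]
  calc a ≤ volume K' / volume K * b := h
    _ < 1 * b := by
        rw [mul_comm, mul_comm (1 : ℝ≥0∞)]
        exact (ENNReal.mul_lt_mul_iff_right h0 ht).2 h1
    _ = b := one_mul b

theorem less (hK : Body K) (hK' : Body K') (h : K' - K' = K - K) (hlt : volume K' < volume K) :
    dT K' < dT K ∧ dL K' < dL K := by
  have hL0 : dL K ≠ 0 := (Pool.Agent.K4H96.MD.dL_pos hK).ne'
  have hT0 : dT K ≠ 0 := fun h => hL0 (le_antisymm ((dL_le_dT K).trans h.le) zero_le)
  exact ⟨strict hK hK' hlt hT0 (dT_ne_top hK) (dT_le hK hK' h),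
    strict hK hK' hlt hL0 (ne_top_of_le_ne_top (dT_ne_top hK) (dL_le_dT K)) (dL_le hK hK' h)⟩

/-- multiplicative Brunn-Minkowski inequality -/
theorem bm_mult3 {A C : Set V} (hA : IsCompact A) (hC : IsCompact C) {t : ℝ}
    (ht0 : 0 < t) (ht1 : t < 1) :
    (volume A).toReal ^ (1 - t) * (volume C).toReal ^ t ≤ (volume ((1 - t) • A + t • C)).toReal := by
  have hD : IsCompact ((1 - t) • A + t • C) := (hA.smul _).add (hC.smul _)
  set D := (1 - t) • A + t • C with hDD
  have hPL := Pool.Agent.H212R2.KLS.PL (volume : Measure V) t ht0 ht1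
    (A.indicator 1) (C.indicator 1)
    (D.indicator 1) (measurable_one.indicator hA.measurableSet)
    (measurable_one.indicator hC.measurableSet) (measurable_one.indicator hD.measurableSet) ?_
  · rw [lintegral_indicator_one hA.measurableSet, lintegral_indicator_one hC.measurableSet,
      lintegral_indicator_one hD.measurableSet] at hPL
    have h1 := ENNReal.toReal_mono hD.measure_lt_top.ne hPL
    rwa [ENNReal.toReal_mul, ← ENNReal.toReal_rpow, ← ENNReal.toReal_rpow] at h1
  · intro x y
    by_cases hx : x ∈ A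
    · by_cases hy : y ∈ C
      · have hxy : (1 - t) • x + t • y ∈ D :=
          ⟨_, Set.smul_mem_smul_set hx, _, Set.smul_mem_smul_set hy, rfl⟩
        rw [Set.indicator_of_mem hx, Set.indicator_of_mem hy, Set.indicator_of_mem hxy]
        simp
      · rw [Set.indicator_of_notMem hy, ENNReal.zero_rpow_of_pos ht0, mul_zero]
        exact zero_le
    · rw [Set.indicator_of_notMem hx, ENNReal.zero_rpow_of_pos (by linarith), zero_mul]
      exact zero_le

/-- one of the two bodies has a smaller volume -/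
theorem vol_lt (hBM : S_BM) {K K0 K1 : Set V} {s : ℝ} (hK0 : Body K0) (hK1 : Body K1)
    (hs0 : 0 < s) (hs1 : s < 1) (hK : K = (1 - s) • K0 + s • K1)
    (hne : ∀ v : V, K1 ≠ (fun x => x + v) '' K0) : volume K0 < volume K ∨ volume K1 < volume K := by
  by_contra hcon
  push Not at hcon
  obtain ⟨h0, h1⟩ := hcon
  have hKc : IsCompact K := by rw [hK]; exact (hK0.1.smul _).add (hK1.1.smul _)
  have hb := bm_mult3 hK0.1 hK1.1 hs0 hs1
  rw [← hK] at hb
  set x := (volume K0).toReal with hx
  set y := (volume K1).toReal with hy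
  set z := (volume K).toReal with hz
  have hzx : z ≤ x := ENNReal.toReal_mono hK0.1.measure_lt_top.ne h0
  have hzy : z ≤ y := ENNReal.toReal_mono hK1.1.measure_lt_top.ne h1
  have hx0 : 0 < x := ENNReal.toReal_pos (vol_ne_zero hK0) hK0.1.measure_lt_top.ne
  have hy0 : 0 < y := ENNReal.toReal_pos (vol_ne_zero hK1) hK1.1.measure_lt_top.ne
  have hz0 : 0 < z := lt_of_lt_of_le
    (mul_pos (Real.rpow_pos_of_pos hx0 _) (Real.rpow_pos_of_pos hy0 _)) hb
  have hzz : z = z ^ (1 - s) * z ^ s := by
    rw [← Real.rpow_add hz0]; norm_num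
  have hxz : x = z := by
    by_contra hne'
    have hlt : z < x := lt_of_le_of_ne hzx (Ne.symm hne')
    have h2 : z ^ (1 - s) < x ^ (1 - s) := Real.rpow_lt_rpow hz0.le hlt (by linarith)
    have h3 : z ^ s ≤ y ^ s := Real.rpow_le_rpow hz0.le hzy hs0.le
    have h4 : z ^ (1 - s) * z ^ s < x ^ (1 - s) * y ^ s :=
      mul_lt_mul h2 h3 (Real.rpow_pos_of_pos hz0 _) (Real.rpow_nonneg hx0.le _)
    linarith
  have hyz : y = z := by
    by_contra hne'
    have hlt : z < y := lt_of_le_of_ne hzy (Ne.symm hne')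
    have h2 : z ^ (1 - s) ≤ x ^ (1 - s) := Real.rpow_le_rpow hz0.le hzx (by linarith)
    have h3 : z ^ s < y ^ s := Real.rpow_lt_rpow hz0.le hlt hs0
    have h4 : z ^ (1 - s) * z ^ s < x ^ (1 - s) * y ^ s :=
      mul_lt_mul' h2 h3 (Real.rpow_nonneg hz0.le _) (Real.rpow_pos_of_pos hx0 _)
    linarith
  have e1 : volume K0 = volume K1 := by
    rw [← ENNReal.toReal_eq_toReal_iff' hK0.1.measure_lt_top.ne hK1.1.measure_lt_top.ne]
    rw [← hx, ← hy, hxz, hyz]
  obtain ⟨v, hv⟩ := hBM K0 K1 hK0.1 hK0.2.1 hK0.2.2 hK1.1 hK1.2.1 hK1.2.2 e1 s hs0 hs1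
    (by rw [← hK]; exact h0)
  exact hne v hv

/-- the main comparison -/
theorem extreme (hBM : S_BM) {K K0 K1 : Set V} {s : ℝ} (hK : Body K) (hK0 : Body K0)
    (hK1 : Body K1) (hs0 : 0 < s) (hs1 : s < 1) (h0 : K0 - K0 = K - K) (h1 : K1 - K1 = K - K)
    (hsum : K = (1 - s) • K0 + s • K1) (hne : ∀ v : V, K1 ≠ (fun x => x + v) '' K0) :
    (dT K0 < dT K ∧ dL K0 < dL K) ∨ (dT K1 < dT K ∧ dL K1 < dL K) := by
  rcases vol_lt hBM hK0 hK1 hs0 hs1 hsum hne with h | h
  · exact Or.inl (less hK hK0 h0 h)
  · exact Or.inr (less hK hK1 h1 h)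

end Pool.Agent.K4H96.EX
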