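import Pool.Agent.K4H96.EX.Spec

set_option autoImplicit false

open MeasureTheory Set
open scoped Pointwise Matrix

namespace Pool.Agent.K4H96.EX

open Pool.Agent.TH219.DL (Body)

namespace DMod

lemma cont_dot (x : V) : Continuous (fun y : V => x ⬝ᵥ y) := by
  unfold dotProduct; fun_prop

lemma bdd {K : Set V} (hK : IsCompact K) (x : V) : BddAbove ((fun y : V => x ⬝ᵥ y) '' K) :=
  (hK.image (cont_dot x)).bddAbove

lemma le_supp {K : Set V} (hK : IsCompact K) {y : V} (hy : y ∈ K) (x : V) :
    x ⬝ᵥ y ≤ supp K x :=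
  le_csSup (bdd hK x) ⟨y, hy, rfl⟩

lemma supp_le {K : Set V} (hne : K.Nonempty) {x : V} {c : ℝ} (h : ∀ y ∈ K, x ⬝ᵥ y ≤ c) :
    supp K x ≤ c := by
  apply csSup_le (hne.image _)
  rintro _ ⟨z, hz, rfl⟩
  exact h z hz

lemma exists_supp {K : Set V} (hK : IsCompact K) (hne : K.Nonempty) (x : V) :
    ∃ y ∈ K, x ⬝ᵥ y = supp K x := by
  obtain ⟨y, hy, h⟩ := hK.exists_isMaxOn hne (cont_dot x).continuousOn
  refine ⟨y, hy, le_antisymm (le_supp hK hy x) ?_⟩
  exact supp_le hne (fun z hz => h hz)

lemma supp_smul {K : Set V} (hK : IsCompact K) (hne : K.Nonempty) {t : ℝ} (ht : 0 ≤ t) (x : V) :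
    supp K (t • x) = t * supp K x := by
  apply le_antisymm
  · apply supp_le hne
    intro y hy
    rw [smul_dotProduct, smul_eq_mul]
    exact mul_le_mul_of_nonneg_left (le_supp hK hy x) ht
  · obtain ⟨y, hy, h⟩ := exists_supp hK hne x
    rw [← h, ← smul_eq_mul, ← smul_dotProduct]
    exact le_supp hK hy _

/-- the vector representing a linear functional -/
lemma exists_vec (f : V →ₗ[ℝ] ℝ) : ∃ w : V, ∀ x, f x = w ⬝ᵥ x := by
  refine ⟨fun i => f (Pi.single i 1), fun x => ?_⟩
  conv_lhs => rw [← Finset.univ_sum_single x]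
  rw [map_sum]
  unfold dotProduct
  refine Finset.sum_congr rfl (fun i _ => ?_)
  have : (Pi.single i (x i) : V) = x i • Pi.single i 1 := by
    ext j
    by_cases h : j = i
    · subst h; simp
    · simp [h]
  rw [this, map_smul, smul_eq_mul, mul_comm]

/-- support functions determine compact convex sets -/
lemma subset_of_supp {A B : Set V} (hA : IsCompact A) (hB : IsCompact B) (hBc : Convex ℝ B)
    (hBne : B.Nonempty) (h : ∀ x, supp A x ≤ supp B x) : A ⊆ B := by
  intro a ha
  by_contra hab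
  obtain ⟨f, u, hf, hu⟩ := geometric_hahn_banach_closed_point hBc hB.isClosed hab
  obtain ⟨w, hw⟩ := exists_vec (f : V →ₗ[ℝ] ℝ)
  have hw' : ∀ x, f x = w ⬝ᵥ x := fun x => hw x
  obtain ⟨b, hb, hbs⟩ := exists_supp hB hBne w
  have h1 := hf b hb
  rw [hw'] at h1 hu
  have h2 := le_supp hA ha w
  have h3 := h w
  linarith

lemma eq_of_supp {A B : Set V} (hA : IsCompact A) (hAc : Convex ℝ A) (hAne : A.Nonempty)
    (hB : IsCompact B) (hBc : Convex ℝ B) (hBne : B.Nonempty) (h : ∀ x, supp A x = supp B x) :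
    A = B :=
  Subset.antisymm (subset_of_supp hA hB hBc hBne (fun x => (h x).le))
    (subset_of_supp hB hA hAc hAne (fun x => (h x).ge))

lemma supp_add {A B : Set V} (hA : IsCompact A) (hAne : A.Nonempty) (hB : IsCompact B)
    (hBne : B.Nonempty) (x : V) : supp (A + B) x = supp A x + supp B x := by
  apply le_antisymm
  · apply supp_le (hAne.add hBne)
    rintro _ ⟨a, ha, b, hb, rfl⟩
    simp only [dotProduct_add]
    exact add_le_add (le_supp hA ha x) (le_supp hB hb x)
  · obtain ⟨a, ha, h1⟩ := exists_supp hA hAne x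
    obtain ⟨b, hb, h2⟩ := exists_supp hB hBne x
    rw [← h1, ← h2, ← dotProduct_add]
    exact le_supp (hA.add hB) (add_mem_add ha hb) x

lemma cpt_sub {A B : Set V} (hA : IsCompact A) (hB : IsCompact B) : IsCompact (A - B) := by
  rw [sub_eq_add_neg]
  exact hA.add hB.neg

lemma supp_sub {A B : Set V} (hA : IsCompact A) (hAne : A.Nonempty) (hB : IsCompact B)
    (hBne : B.Nonempty) (x : V) : supp (A - B) x = supp A x + supp B (-x) := by
  apply le_antisymm
  · apply supp_le (hAne.sub hBne)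
    rintro _ ⟨a, ha, b, hb, rfl⟩
    simp only [dotProduct_sub]
    have := le_supp hB hb (-x)
    rw [neg_dotProduct] at this
    linarith [le_supp hA ha x]
  · obtain ⟨a, ha, h1⟩ := exists_supp hA hAne x
    obtain ⟨b, hb, h2⟩ := exists_supp hB hBne (-x)
    rw [← h1, ← h2, neg_dotProduct, ← sub_eq_add_neg, ← dotProduct_sub]
    exact le_supp (cpt_sub hA hB) (sub_mem_sub ha hb) x

lemma supp_dil {A : Set V} (hA : IsCompact A) (hAne : A.Nonempty) {t : ℝ} (ht : 0 ≤ t) (x : V) :
    supp (t • A) x = t * supp A x := by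
  apply le_antisymm
  · apply supp_le hAne.smul_set
    rintro _ ⟨a, ha, rfl⟩
    simp only [dotProduct_smul, smul_eq_mul]
    exact mul_le_mul_of_nonneg_left (le_supp hA ha x) ht
  · obtain ⟨a, ha, h1⟩ := exists_supp hA hAne x
    rw [← h1, ← smul_eq_mul, ← dotProduct_smul]
    exact le_supp (hA.smul t) (smul_mem_smul_set ha) x

/-- the body of a sublinear function -/
def W (h : V → ℝ) : Set V := {y | ∀ x : V, x ⬝ᵥ y ≤ h x}

lemma W_convex (h : V → ℝ) : Convex ℝ (W h) := by
  intro y hy z hz a b ha hb hab x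
  rw [dotProduct_add, dotProduct_smul, dotProduct_smul, smul_eq_mul, smul_eq_mul]
  have e : h x = a * h x + b * h x := by rw [← add_mul, hab, one_mul]
  rw [e]
  exact add_le_add (mul_le_mul_of_nonneg_left (hy x) ha) (mul_le_mul_of_nonneg_left (hz x) hb)

lemma W_closed (h : V → ℝ) : IsClosed (W h) := by
  have : W h = ⋂ x : V, {y | x ⬝ᵥ y ≤ h x} := by
    ext y; simp [W]
  rw [this]
  exact isClosed_iInter (fun x => isClosed_le (cont_dot x) continuous_const)

lemma W_compact (h : V → ℝ) : IsCompact (W h) := by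
  have hsub : W h ⊆ Icc (fun i => - h (-(Pi.single i 1))) (fun i => h (Pi.single i 1)) := by
    intro y hy
    constructor
    · intro i
      have := hy (-(Pi.single i 1))
      rw [neg_dotProduct, single_dotProduct, one_mul] at this
      show - h (-(Pi.single i 1)) ≤ y i
      linarith
    · intro i
      have := hy (Pi.single i 1)
      rw [single_dotProduct, one_mul] at this
      exact this
  exact isCompact_Icc.of_isClosed_subset (W_closed h) hsub

/-- Hahn-Banach: the sublinear function is the support function of its body -/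
lemma W_attain {h : V → ℝ} (hom : ∀ t : ℝ, 0 ≤ t → ∀ x, h (t • x) = t * h x)
    (hadd : ∀ x y, h (x + y) ≤ h x + h y) {x0 : V} (hx0 : x0 ≠ 0) :
    ∃ y ∈ W h, x0 ⬝ᵥ y = h x0 := by
  have h0 : h 0 = 0 := by
    have := hom 0 le_rfl 0
    simpa using this
  obtain ⟨φ, hφ1, hφ2⟩ := exists_extension_of_le_sublinear
    (LinearPMap.mkSpanSingleton x0 (h x0) hx0) h (fun c hc x => hom c hc.le x) hadd (by
      rintro ⟨x, hx⟩
      obtain ⟨c, rfl⟩ := Submodule.mem_span_singleton.1 hx
      rw [LinearPMap.mkSpanSingleton'_apply]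
      show c • h x0 ≤ h (c • x0)
      rw [smul_eq_mul]
      rcases le_or_gt 0 c with hc | hc
      · rw [hom c hc]
      · have e1 : c • x0 = (-c) • (-x0) := by simp
        rw [e1, hom (-c) (by linarith)]
        have e2 := hadd x0 (-x0)
        rw [add_neg_cancel, h0] at e2
        nlinarith)
  obtain ⟨w, hw⟩ := exists_vec φ
  refine ⟨w, fun x => ?_, ?_⟩
  · rw [dotProduct_comm, ← hw]
    exact hφ2 x
  · rw [dotProduct_comm, ← hw]
    have := hφ1 ⟨x0, Submodule.mem_span_singleton_self x0⟩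
    rw [this]
    exact LinearPMap.mkSpanSingleton'_apply_self _ _ _ _

lemma W_nonempty {h : V → ℝ} (hom : ∀ t : ℝ, 0 ≤ t → ∀ x, h (t • x) = t * h x)
    (hadd : ∀ x y, h (x + y) ≤ h x + h y) : (W h).Nonempty := by
  have hne : (Pi.single 0 1 : V) ≠ 0 := by
    intro hc
    have := congrFun hc 0
    simp at this
  obtain ⟨y, hy, _⟩ := W_attain hom hadd hne
  exact ⟨y, hy⟩

lemma supp_W {h : V → ℝ} (hom : ∀ t : ℝ, 0 ≤ t → ∀ x, h (t • x) = t * h x)
    (hadd : ∀ x y, h (x + y) ≤ h x + h y) (x : V) : supp (W h) x = h x := by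
  apply le_antisymm
  · exact supp_le (W_nonempty hom hadd) (fun y hy => hy x)
  · by_cases hx : x = 0
    · subst hx
      obtain ⟨y, hy⟩ := W_nonempty hom hadd
      have h0 : h 0 = 0 := by
        have := hom 0 le_rfl 0
        simpa using this
      have := le_supp (W_compact h) hy 0
      rw [zero_dotProduct] at this
      rw [h0]; exact this
    · obtain ⟨y, hy, e⟩ := W_attain hom hadd hx
      rw [← e]
      exact le_supp (W_compact h) hy x

lemma nrm_eq (x : V) : nrm x = ‖(WithLp.toLp 2 x : EuclideanSpace ℝ (Fin 3))‖ := by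
  rw [EuclideanSpace.norm_eq]
  unfold nrm dotProduct
  congr 1
  refine Finset.sum_congr rfl (fun i _ => ?_)
  simp [sq]

lemma nrm_nonneg (x : V) : 0 ≤ nrm x := Real.sqrt_nonneg _

lemma nrm_add (x y : V) : nrm (x + y) ≤ nrm x + nrm y := by
  rw [nrm_eq, nrm_eq, nrm_eq, WithLp.toLp_add]
  exact norm_add_le _ _

lemma nrm_smul {t : ℝ} (ht : 0 ≤ t) (x : V) : nrm (t • x) = t * nrm x := by
  rw [nrm_eq, nrm_eq, WithLp.toLp_smul, norm_smul, Real.norm_of_nonneg ht]

lemma nrm_neg (x : V) : nrm (-x) = nrm x := by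
  unfold nrm; simp

lemma nrm_sq (x : V) : nrm x * nrm x = x ⬝ᵥ x :=
  Real.mul_self_sqrt (by
    unfold dotProduct
    exact Finset.sum_nonneg (fun i _ => mul_self_nonneg _))

/-- comparison of support functions up to `η |x|` gives an inclusion up to `η` -/
lemma near {A B : Set V} (hA : IsCompact A) (hB : IsCompact B) (hBc : Convex ℝ B)
    (hBne : B.Nonempty) {η : ℝ} (hη : 0 < η) (h : ∀ x, supp A x ≤ supp B x + η * nrm x) :
    ∀ y ∈ A, ∃ y' ∈ B, nrm (y - y') ≤ η := by
  have hom : ∀ t : ℝ, 0 ≤ t → ∀ x : V, η * nrm (t • x) = t * (η * nrm x) := by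
    intro t ht x
    rw [nrm_smul ht]; ring
  have hadd : ∀ x y : V, η * nrm (x + y) ≤ η * nrm x + η * nrm y := by
    intro x y
    rw [← mul_add]
    exact mul_le_mul_of_nonneg_left (nrm_add x y) hη.le
  have hWc := W_compact (fun x => η * nrm x)
  have hWne : (W (fun x => η * nrm x)).Nonempty := W_nonempty hom hadd
  have hsub : A ⊆ B + W (fun x => η * nrm x) := by
    apply subset_of_supp hA (hB.add hWc) (hBc.add (W_convex _)) (hBne.add hWne)
    intro x
    rw [supp_add hB hBne hWc hWne, supp_W hom hadd]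
    exact h x
  intro y hy
  obtain ⟨y', hy', z, hz, e⟩ := hsub hy
  refine ⟨y', hy', ?_⟩
  have e' : y - y' = z := by
    rw [← e]; simp
  rw [e']
  have h1 := hz z
  rw [← nrm_sq] at h1
  rcases (nrm_nonneg z).eq_or_lt with h2 | h2
  · rw [← h2]; exact hη.le
  · exact le_of_mul_le_mul_right h1 h2

/-- a convex set whose difference set is that of a body has interior points -/
lemma interior_of_sub {K A : Set V} (hK : (interior K).Nonempty) (hAc : Convex ℝ A)
    (h : A - A = K - K) : (interior A).Nonempty := by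
  by_contra hcon
  have h1 : affineSpan ℝ A ≠ ⊤ := by
    intro h2
    exact hcon ((hAc.interior_nonempty_iff_affineSpan_eq_top).2 h2)
  have hKne : K.Nonempty := hK.mono interior_subset
  have hAne : A.Nonempty := by
    obtain ⟨k, hk⟩ := hKne
    have : k - k ∈ A - A := by rw [h]; exact sub_mem_sub hk hk
    obtain ⟨a, ha, -⟩ := this
    exact ⟨a, ha⟩
  have h2 : (affineSpan ℝ A).direction ≠ ⊤ := by
    intro h3
    apply h1
    rwa [AffineSubspace.direction_eq_top_iff_of_nonempty
      ((affineSpan_nonempty ℝ).2 hAne)] at h3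
  obtain ⟨f, hf0, hf⟩ := Submodule.exists_le_ker_of_lt_top _ (lt_top_iff_ne_top.2 h2)
  obtain ⟨w, hw⟩ := exists_vec f
  have hz : ∀ z ∈ K - K, w ⬝ᵥ z = 0 := by
    intro z hz
    rw [← h] at hz
    obtain ⟨a, ha, b, hb, rfl⟩ := hz
    rw [← hw]
    have : a - b ∈ (affineSpan ℝ A).direction := by
      exact AffineSubspace.vsub_mem_direction (subset_affineSpan ℝ A ha) (subset_affineSpan ℝ A hb)
    exact LinearMap.mem_ker.1 (hf this)
  obtain ⟨k, hk⟩ := hK
  have hk' : K ∈ nhds k := mem_interior_iff_mem_nhds.1 hk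
  have hc : Filter.Tendsto (fun t : ℝ => k + t • w) (nhds 0) (nhds k) := by
    have : Continuous (fun t : ℝ => k + t • w) := by fun_prop
    have h5 := this.tendsto 0
    simpa using h5
  have hev := hc.eventually hk'
  obtain ⟨ε, hε, hball⟩ := Metric.eventually_nhds_iff.1 hev
  have hmem : k + (ε / 2) • w ∈ K := by
    apply hball
    rw [Real.dist_eq, sub_zero, abs_of_pos (by linarith)]
    linarith
  have h6 := hz _ (sub_mem_sub hmem (interior_subset hk))
  rw [add_sub_cancel_left, dotProduct_smul, smul_eq_mul] at h6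
  have h7 : w ⬝ᵥ w = 0 := by
    rcases mul_eq_zero.1 h6 with h8 | h8
    · linarith
    · exact h8
  have h8 : w = 0 := by
    exact dotProduct_self_eq_zero.1 h7
  apply hf0
  apply LinearMap.ext
  intro x
  rw [hw, h8]
  simp

end DMod

open DMod

theorem s_d : S_D := by
  intro K g η hK hη godd ghom gbd gnl hc1 hc2
  obtain ⟨hKc, hKv, hKi⟩ := hK
  have hKne : K.Nonempty := hKi.mono interior_subset
  -- sublinearity
  have key : ∀ σ : ℝ, ConvexOn ℝ univ (fun x => supp K x + σ * g x) →
      (∀ t : ℝ, 0 ≤ t → ∀ x, (fun x => supp K x + σ * g x) (t • x) =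
        t * (fun x => supp K x + σ * g x) x) ∧
      (∀ x y, (fun x => supp K x + σ * g x) (x + y) ≤
        (fun x => supp K x + σ * g x) x + (fun x => supp K x + σ * g x) y) := by
    intro σ hcv
    have hom : ∀ t : ℝ, 0 ≤ t → ∀ x, (fun x => supp K x + σ * g x) (t • x) =
        t * (fun x => supp K x + σ * g x) x := by
      intro t ht x
      simp only
      rw [supp_smul hKc hKne ht, ghom t ht]; ring
    refine ⟨hom, fun x y => ?_⟩
    have h1 := hcv.2 (mem_univ x) (mem_univ y) (by norm_num : (0:ℝ) ≤ 1 / 2)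
      (by norm_num : (0:ℝ) ≤ 1 / 2) (by norm_num)
    have h2 := hom 2 (by norm_num) ((1 / 2 : ℝ) • x + (1 / 2 : ℝ) • y)
    have e : (2 : ℝ) • ((1 / 2 : ℝ) • x + (1 / 2 : ℝ) • y) = x + y := by
      rw [smul_add, smul_smul, smul_smul]; norm_num
    rw [e] at h2
    rw [h2]
    simp only [smul_eq_mul] at h1 ⊢
    linarith
  obtain ⟨hom0, add0⟩ := key 1 (by simpa using hc1)
  obtain ⟨hom1, add1⟩ := key (-1) (by
    have : (fun x => supp K x + (-1) * g x) = (fun x => supp K x - g x) := by
      ext x; ring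
    rw [this]; exact hc2)
  set h0 : V → ℝ := fun x => supp K x + 1 * g x with hh0
  set h1 : V → ℝ := fun x => supp K x + (-1) * g x with hh1
  have s0 : ∀ x, supp (W h0) x = supp K x + g x := by
    intro x; rw [supp_W hom0 add0]; simp [hh0]
  have s1 : ∀ x, supp (W h1) x = supp K x - g x := by
    intro x; rw [supp_W hom1 add1, hh1]; ring
  have c0 := W_compact h0
  have c1 := W_compact h1
  have v0 := W_convex h0
  have v1 := W_convex h1
  have n0 : (W h0).Nonempty := W_nonempty hom0 add0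
  have n1 : (W h1).Nonempty := W_nonempty hom1 add1
  have d0 : W h0 - W h0 = K - K := by
    apply eq_of_supp (cpt_sub c0 c0) (v0.sub v0) (n0.sub n0) (cpt_sub hKc hKc) (hKv.sub hKv) (hKne.sub hKne)
    intro x
    rw [supp_sub c0 n0 c0 n0, supp_sub hKc hKne hKc hKne, s0, s0, godd]
    ring
  have d1 : W h1 - W h1 = K - K := by
    apply eq_of_supp (cpt_sub c1 c1) (v1.sub v1) (n1.sub n1) (cpt_sub hKc hKc) (hKv.sub hKv) (hKne.sub hKne)
    intro x
    rw [supp_sub c1 n1 c1 n1, supp_sub hKc hKne hKc hKne, s1, s1, godd]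
    ring
  refine ⟨W h0, W h1, ⟨c0, v0, interior_of_sub hKi v0 d0⟩, ⟨c1, v1, interior_of_sub hKi v1 d1⟩,
    d0, d1, ?_, ?_, ?_, ?_, ?_, ?_⟩
  · apply eq_of_supp hKc hKv hKne ((c0.smul _).add (c1.smul _)) ((v0.smul _).add (v1.smul _))
      (n0.smul_set.add n1.smul_set)
    intro x
    rw [supp_add (c0.smul _) n0.smul_set (c1.smul _) n1.smul_set, supp_dil c0 n0 (by norm_num),
      supp_dil c1 n1 (by norm_num), s0, s1]
    ring
  · intro v hv
    obtain ⟨x, hx⟩ := gnl (-(1 / 2 : ℝ) • v)
    apply hx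
    have h2 : supp (W h1) x = supp (W h0) x + x ⬝ᵥ v := by
      rw [hv]
      apply le_antisymm
      · apply supp_le (n0.image _)
        rintro _ ⟨y, hy, rfl⟩
        rw [dotProduct_add]
        linarith [le_supp c0 hy x]
      · obtain ⟨y, hy, e⟩ := exists_supp c0 n0 x
        rw [← e, ← dotProduct_add]
        have hcomp : IsCompact ((fun x => x + v) '' W h0) := c0.image (by fun_prop)
        exact le_supp hcomp ⟨y, hy, rfl⟩ x
    rw [s0, s1] at h2
    rw [dotProduct_smul, smul_eq_mul]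
    linarith
  · exact near hKc c0 v0 n0 hη (fun x => by
      rw [s0]
      linarith [(abs_le.1 (gbd x)).1])
  · exact near c0 hKc hKv hKne hη (fun x => by
      rw [s0]
      linarith [(abs_le.1 (gbd x)).2])
  · exact near hKc c1 v1 n1 hη (fun x => by
      rw [s1]
      linarith [(abs_le.1 (gbd x)).2])
  · exact near c1 hKc hKv hKne hη (fun x => by
      rw [s1]
      linarith [(abs_le.1 (gbd x)).1])

end Pool.Agent.K4H96.EX
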