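import Mathlib
import Pool.Agent.K4H96.EX.Cmp

/-!
# Bodies which are round at two opposite directions are not minimisers
-/

set_option autoImplicit false

open MeasureTheory Set
open scoped Pointwise Matrix

namespace Pool.Agent.K4H96.EX

open Pool.Agent.TH219.DL (dL dT Body mn)

theorem dp_continuous (x : V) : Continuous fun y : V => x ⬝ᵥ y := by
  unfold dotProduct
  fun_prop

theorem le_supp {K : Set V} (hK : IsCompact K) (x : V) {y : V} (hy : y ∈ K) : x ⬝ᵥ y ≤ supp K x :=
  le_csSup (hK.image (dp_continuous x)).bddAbove ⟨y, hy, rfl⟩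

theorem exists_supp {K : Set V} (hK : IsCompact K) (hne : K.Nonempty) (x : V) :
    ∃ y ∈ K, supp K x = x ⬝ᵥ y := by
  obtain ⟨y, hy, h⟩ := (hK.image (dp_continuous x)).sSup_mem (hne.image _)
  exact ⟨y, hy, h.symm⟩

theorem supp_smul {K : Set V} (hK : IsCompact K) (hne : K.Nonempty) {t : ℝ} (ht : 0 ≤ t) (x : V) :
    supp K (t • x) = t * supp K x := by
  apply le_antisymm
  · obtain ⟨y, hy, h⟩ := exists_supp hK hne (t • x)
    rw [h, smul_dotProduct, smul_eq_mul]
    exact mul_le_mul_of_nonneg_left (le_supp hK x hy) ht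
  · obtain ⟨y, hy, h⟩ := exists_supp hK hne x
    rw [h, ← smul_eq_mul, ← smul_dotProduct]
    exact le_supp hK (t • x) hy

theorem supp_convex {K : Set V} (hK : IsCompact K) (hne : K.Nonempty) :
    ConvexOn ℝ univ (supp K) := by
  refine ⟨convex_univ, fun x _ y _ a b ha hb _ => ?_⟩
  obtain ⟨z, hz, h⟩ := exists_supp hK hne (a • x + b • y)
  rw [h, add_dotProduct, smul_dotProduct, smul_dotProduct]
  exact add_le_add (mul_le_mul_of_nonneg_left (le_supp hK x hz) ha)
    (mul_le_mul_of_nonneg_left (le_supp hK y hz) hb)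

theorem supp_neg_nonneg {K : Set V} (hK : IsCompact K) (hne : K.Nonempty) (x : V) :
    0 ≤ supp K x + supp K (-x) := by
  obtain ⟨y, hy⟩ := hne
  have h1 := le_supp hK x hy
  have h2 := le_supp hK (-x) hy
  rw [neg_dotProduct] at h2
  linarith

theorem dp_self_nonneg (x : V) : 0 ≤ x ⬝ᵥ x := by
  unfold dotProduct
  exact Finset.sum_nonneg fun i _ => mul_self_nonneg _

theorem dp_self_eq_zero {x : V} (h : x ⬝ᵥ x = 0) : x = 0 := by
  unfold dotProduct at h
  rw [Finset.sum_eq_zero_iff_of_nonneg (fun i _ => mul_self_nonneg _)] at h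
  ext i
  exact mul_self_eq_zero.1 (h i (Finset.mem_univ i))

theorem nrm_smul {t : ℝ} (ht : 0 ≤ t) (x : V) : nrm (t • x) = t * nrm x := by
  unfold nrm
  rw [smul_dotProduct, dotProduct_smul, smul_eq_mul, smul_eq_mul, ← mul_assoc,
    Real.sqrt_mul (mul_self_nonneg t), Real.sqrt_mul_self ht]

theorem nrm_neg (x : V) : nrm (-x) = nrm x := by
  unfold nrm
  rw [neg_dotProduct, dotProduct_neg, neg_neg]

theorem nrm_nonneg (x : V) : 0 ≤ nrm x := Real.sqrt_nonneg _

theorem continuous_of_convex {f : V → ℝ} (h : ConvexOn ℝ univ f) : Continuous f :=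
  continuousOn_univ.1 (h.continuousOn isOpen_univ)

theorem exists_perp {u : V} : ∃ w : V, w ≠ 0 ∧ w ⬝ᵥ u = 0 := by
  by_cases h : u 0 = 0 ∧ u 1 = 0
  · refine ⟨![1, 0, 0], ?_, ?_⟩
    · intro h'
      have := congrFun h' 0
      simp at this
    · simp [dotProduct, Fin.sum_univ_three, h.1]
  · refine ⟨![-u 1, u 0, 0], ?_, ?_⟩
    · intro h'
      have h1 := congrFun h' 0
      have h2 := congrFun h' 1
      simp at h1 h2
      exact h ⟨h2, h1⟩
    · simp [dotProduct, Fin.sum_univ_three]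
      ring

/-- the bump is not linear -/
theorem bump_not_linear {g : V → ℝ} {u : V} (hu : u ⬝ᵥ u = 1) {c : ℝ} (hc : 0 < c) (hgu : 0 < g u)
    (hg : ∀ x, |x ⬝ᵥ u| ≤ c * nrm x → g x = 0) (v : V) : ∃ x, g x ≠ x ⬝ᵥ v := by
  by_contra hcon
  push Not at hcon
  -- `v` is orthogonal to the vectors orthogonal to `u`
  have h1 : ∀ x : V, x ⬝ᵥ u = 0 → x ⬝ᵥ v = 0 := by
    intro x hx
    rw [← hcon x]
    apply hg
    rw [hx, abs_zero]
    exact mul_nonneg hc.le (nrm_nonneg x)
  set a := v ⬝ᵥ u with ha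
  have h2 : v = a • u := by
    have h3 : (v - a • u) ⬝ᵥ u = 0 := by
      rw [sub_dotProduct, smul_dotProduct, hu, smul_eq_mul, mul_one, sub_self]
    have h4 := h1 _ h3
    have h5 : (v - a • u) ⬝ᵥ (v - a • u) = 0 := by
      rw [dotProduct_sub, h4, dotProduct_smul, h3, smul_zero, sub_zero]
    exact sub_eq_zero.1 (dp_self_eq_zero h5)
  obtain ⟨w, hw0, hw⟩ := exists_perp (u := u)
  have hwn : 0 < w ⬝ᵥ w := lt_of_le_of_ne (dp_self_nonneg w) fun h => hw0 (dp_self_eq_zero h.symm)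
  set δ := c * nrm w with hδ
  have hδ0 : 0 < δ := mul_pos hc (Real.sqrt_pos.2 hwn)
  have h6 : (w + δ • u) ⬝ᵥ u = δ := by
    rw [add_dotProduct, hw, smul_dotProduct, hu, smul_eq_mul, mul_one, zero_add]
  have h7 : g (w + δ • u) = 0 := by
    apply hg
    rw [h6, abs_of_pos hδ0, hδ]
    apply mul_le_mul_of_nonneg_left _ hc.le
    unfold nrm
    apply Real.sqrt_le_sqrt
    rw [add_dotProduct, dotProduct_add, dotProduct_add, dotProduct_smul, hw, smul_dotProduct,
      smul_dotProduct, dotProduct_comm u w, hw, dotProduct_smul, hu]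
    have h9 := mul_self_nonneg (c * √(w ⬝ᵥ w))
    simp only [smul_eq_mul, hδ, nrm] at h9 ⊢
    linarith
  have h8 := hcon (w + δ • u)
  rw [h7, h2, dotProduct_smul, h6, smul_eq_mul] at h8
  have h9 : a = 0 := by
    rcases mul_eq_zero.1 h8.symm with h | h
    · exact h
    · exact absurd h hδ0.ne'
  have h10 := hcon u
  rw [h2, h9, zero_smul, dotProduct_zero] at h10
  linarith

theorem sum_convex {S : Set V} (hS : Convex ℝ S) {f n k : V → ℝ} {r ε C : ℝ} (hn : ConvexOn ℝ univ n)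
    (hk : ConvexOn ℝ univ k) (hε : 0 ≤ ε) (hεC : ε * C ≤ r)
    (hf : ConvexOn ℝ S fun x => f x - r * n x) :
    ConvexOn ℝ S fun x => f x - (ε * C) * n x + ε * k x := by
  have h1 := (hf.add ((hn.subset (subset_univ S) hS).smul (sub_nonneg.2 hεC))).add
    ((hk.subset (subset_univ S) hS).smul hε)
  refine h1.congr fun x _ => ?_
  simp only [Pi.add_apply, smul_eq_mul]
  ring

theorem round_not_min (hSA : S_A) (hSB : S_B) (hSC : S_C) (hSD : S_D) {K : Set V} (hK : Body K)
    {u : V} (hu : u ⬝ᵥ u = 1) (h1 : Round K u) (h2 : Round K (-u)) {η : ℝ} (hη : 0 < η) :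
    ∃ K' : Set V, Body K' ∧ K' - K' = K - K ∧ (∀ y ∈ K, ∃ y' ∈ K', nrm (y - y') ≤ η) ∧
      (∀ y ∈ K', ∃ y' ∈ K, nrm (y - y') ≤ η) ∧ dT K' < dT K ∧ dL K' < dL K := by
  obtain ⟨r1, c1, hr1, hc1, hc1', hcx1⟩ := h1
  obtain ⟨r2, c2, hr2, hc2, hc2', hcx2⟩ := h2
  have hKc := hK.1
  have hKn : K.Nonempty := hK.2.2.mono interior_subset
  set r := min r1 r2 with hr
  have hrpos : 0 < r := lt_min hr1 hr2
  set c := max c1 c2 with hc
  have hc0 : 0 ≤ c := le_max_of_le_left hc1
  have hclt : c < 1 := max_lt hc1' hc2'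
  set c' := (c + 1) / 2 with hc'
  have hcc' : c < c' := by rw [hc']; linarith
  have hc'1 : c' < 1 := by rw [hc']; linarith
  have hc'0 : 0 < c' := by rw [hc']; linarith
  obtain ⟨g, hodd, hhom, hle, hgu, hg0, C, hC, hCp, hCm⟩ := hSB u hu c' hc'0.le hc'1
  have hn : ConvexOn ℝ univ nrm := by
    have h3 := (hCp.add hCm).smul (show (0 : ℝ) ≤ (2 * C)⁻¹ by positivity)
    refine h3.congr fun x _ => ?_
    simp only [Pi.add_apply, smul_eq_mul]
    field_simp
    ring
  have hsc := supp_convex hKc hKn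
  have hscont := continuous_of_convex hsc
  have hgcont : Continuous g := by
    have h3 := (continuous_of_convex hCp).sub ((continuous_of_convex hn).const_smul C)
    refine h3.congr fun x => ?_
    simp
  set ε := min (r / C) η with hε
  have hεpos : 0 < ε := lt_min (div_pos hrpos hC) hη
  have hεC : ε * C ≤ r := by
    rw [← le_div_iff₀ hC]
    exact min_le_left _ _
  -- the cones
  have hsub1 : ∀ w : V, {x : V | c * nrm x < x ⬝ᵥ w} ⊆ {x : V | c1 * nrm x < x ⬝ᵥ w} := fun w x hx =>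
    lt_of_le_of_lt (mul_le_mul_of_nonneg_right (le_max_left _ _) (nrm_nonneg x)) hx
  have hsub2 : ∀ w : V, {x : V | c * nrm x < x ⬝ᵥ w} ⊆ {x : V | c2 * nrm x < x ⬝ᵥ w} := fun w x hx =>
    lt_of_le_of_lt (mul_le_mul_of_nonneg_right (le_max_right _ _) (nrm_nonneg x)) hx
  have hcone : ∀ w : V, Convex ℝ {x : V | c * nrm x < x ⬝ᵥ w} := by
    intro w
    have h3 : ConvexOn ℝ univ fun x : V => c * nrm x - x ⬝ᵥ w := by
      refine ⟨convex_univ, fun x _ y _ a b ha hb hab => ?_⟩
      have h4 := hn.2 (mem_univ x) (mem_univ y) ha hb hab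
      simp only [smul_eq_mul, add_dotProduct, smul_dotProduct] at h4 ⊢
      nlinarith [mul_le_mul_of_nonneg_left h4 hc0]
    have h4 := h3.convex_lt 0
    have e : {x : V | c * nrm x < x ⬝ᵥ w} = {x | x ∈ univ ∧ c * nrm x - x ⬝ᵥ w < 0} := by
      ext x
      simp only [mem_ofPred_eq, mem_univ, true_and, sub_neg]
    rw [e]
    exact h4
  have hcv1 : ConvexOn ℝ {x : V | c * nrm x < x ⬝ᵥ u} fun x => supp K x - r * nrm x := by
    have h3 := (hcx1.subset (hsub1 u) (hcone u)).add
      ((hn.subset (subset_univ _) (hcone u)).smul (sub_nonneg.2 (min_le_left r1 r2)))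
    refine h3.congr fun x _ => ?_
    simp only [Pi.add_apply, smul_eq_mul]
    ring
  have hcv2 : ConvexOn ℝ {x : V | c * nrm x < x ⬝ᵥ (-u)} fun x => supp K x - r * nrm x := by
    have h3 := (hcx2.subset (hsub2 (-u)) (hcone (-u))).add
      ((hn.subset (subset_univ _) (hcone (-u))).smul (sub_nonneg.2 (min_le_right r1 r2)))
    refine h3.congr fun x _ => ?_
    simp only [Pi.add_apply, smul_eq_mul]
    ring
  have hset2 : {x : V | c * nrm x < x ⬝ᵥ (-u)} = {x : V | c * nrm x < -(x ⬝ᵥ u)} := by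
    ext x; simp [dotProduct_neg]
  -- the two functions
  have key : ∀ σ : ℝ, (σ = 1 ∨ σ = -1) → ConvexOn ℝ univ (fun x => C * nrm x + σ * g x) →
      ConvexOn ℝ univ (fun x => supp K x + σ * (ε * g x)) := by
    intro σ hσ hcvσ
    apply hSC (fun x => supp K x + σ * (ε * g x)) (supp K) u c c' hu hc0 hcc' hc'1
    · exact hscont.add ((hgcont.const_smul ε).const_smul σ)
    · intro t ht x
      rw [supp_smul hKc hKn ht, hhom t ht]
      ring
    · intro x
      have h3 := supp_neg_nonneg hKc hKn x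
      rw [hodd]
      linarith
    · exact hsc
    · intro x hx
      rw [hg0 x hx, mul_zero, mul_zero, add_zero]
    · refine (sum_convex (hcone u) hn hcvσ hεpos.le hεC hcv1).congr fun x _ => ?_
      ring
    · rw [← hset2]
      refine (sum_convex (hcone (-u)) hn hcvσ hεpos.le hεC hcv2).congr fun x _ => ?_
      ring
  have hp := key 1 (Or.inl rfl) (hCp.congr fun x _ => by simp)
  have hm := key (-1) (Or.inr rfl) (hCm.congr fun x _ => by ring)
  obtain ⟨K0, K1, hK0, hK1, hd0, hd1, hsum, hne, n1, n2, n3, n4⟩ := hSD K (fun x => ε * g x) η hK hη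
    (fun x => by simp only [hodd, mul_neg])
    (fun t ht x => by simp only [hhom t ht]; ring)
    (fun x => by
      rw [abs_mul, abs_of_pos hεpos]
      exact mul_le_mul (min_le_right _ _) (hle x) (abs_nonneg _) hη.le)
    (fun v => by
      apply bump_not_linear (g := fun x => ε * g x) hu hc'0 (mul_pos hεpos hgu)
      intro x hx
      rw [hg0 x hx, mul_zero])
    (hp.congr fun x _ => by simp only [one_mul]) (hm.congr fun x _ => by ring)
  have hsum' : K = (1 - (1 / 2 : ℝ)) • K0 + (1 / 2 : ℝ) • K1 := by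
    rw [hsum]; norm_num
  rcases extreme (s_bm hSA) hK hK0 hK1 (by norm_num) (by norm_num) hd0 hd1 hsum' hne with h | h
  · exact ⟨K0, hK0, hd0, n1, n2, h.1, h.2⟩
  · exact ⟨K1, hK1, hd1, n3, n4, h.1, h.2⟩

end Pool.Agent.K4H96.EX
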