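import Mathlib
import Pool.Agent.K4H96.EX.RoundB
import Pool.Agent.K4H96.EX.D

/-!
# Bodies with a summand `(1-t) W - t W` are not minimisers
-/

set_option autoImplicit false

open MeasureTheory Set
open scoped Pointwise Matrix

namespace Pool.Agent.K4H96.EX

open Pool.Agent.TH219.DL (dL dT Body mn)

theorem supp_singleton (v x : V) : supp {v} x = x ⬝ᵥ v := by
  unfold supp
  rw [image_singleton, csSup_singleton]

theorem image_add_singleton (A : Set V) (v : V) : (fun x : V => x + v) '' A = A + {v} :=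
  Set.add_singleton.symm

/-- `K = C + (1-t) W - t W`, where `W` is not centrally symmetric -/
theorem summand (hBM : S_BM) {K C W : Set V} {t : ℝ} (hK : Body K) (hC : IsCompact C)
    (hCv : Convex ℝ C) (hW : IsCompact W) (hWv : Convex ℝ W) (ht0 : 0 < t)
    (ht1 : t < 1) (hsum : K = C + ((1 - t) • W + t • (-W)))
    (hsym : ∀ v : V, -W ≠ (fun x => x + v) '' W) :
    (Body (C + W) ∧ (C + W) - (C + W) = K - K ∧ dT (C + W) < dT K ∧ dL (C + W) < dL K) ∨
    (Body (C - W) ∧ (C - W) - (C - W) = K - K ∧ dT (C - W) < dT K ∧ dL (C - W) < dL K) := by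
  have hKn : K.Nonempty := hK.2.2.mono interior_subset
  have hCn : C.Nonempty := by
    rw [hsum] at hKn
    exact hKn.of_add_left
  have hWn : W.Nonempty := by
    rw [hsum] at hKn
    have := hKn.of_add_right.of_add_left
    exact (Set.smul_set_nonempty).1 this
  have ht1' : 0 ≤ 1 - t := by linarith
  have hWneg : IsCompact (-W) := hW.neg
  have hWnn : (-W).Nonempty := hWn.neg
  have hsub : C - W = C + (-W) := sub_eq_add_neg C W
  have hc0 : IsCompact (C + W) := hC.add hW
  have hc1 : IsCompact (C - W) := by rw [hsub]; exact hC.add hWneg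
  have hv0 : Convex ℝ (C + W) := hCv.add hWv
  have hv1 : Convex ℝ (C - W) := hCv.sub hWv
  have hn0 : (C + W).Nonempty := hCn.add hWn
  have hn1 : (C - W).Nonempty := hCn.sub hWn
  -- support functions
  have sneg : ∀ x, supp (-W) x = supp W (-x) := by
    intro x
    unfold supp
    congr 1
    ext z
    constructor
    · rintro ⟨y, hy, rfl⟩
      exact ⟨-y, hy, by simp⟩
    · rintro ⟨y, hy, rfl⟩
      exact ⟨-y, by simpa using hy, by simp⟩
  have s0 : ∀ x, supp (C + W) x = supp C x + supp W x := DMod.supp_add hC hCn hW hWn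
  have s1 : ∀ x, supp (C - W) x = supp C x + supp W (-x) := fun x => by
    rw [hsub, DMod.supp_add hC hCn hWneg hWnn, sneg]
  have sK : ∀ x, supp K x = supp C x + ((1 - t) * supp W x + t * supp W (-x)) := by
    intro x
    rw [hsum, DMod.supp_add hC hCn ((hW.smul _).add (hWneg.smul _))
      ((hWn.smul_set).add (hWnn.smul_set)), DMod.supp_add (hW.smul _) hWn.smul_set (hWneg.smul _)
      hWnn.smul_set, DMod.supp_dil hW hWn ht1', DMod.supp_dil hWneg hWnn ht0.le, sneg]
  have sd : ∀ A : Set V, IsCompact A → A.Nonempty → ∀ x, supp (A - A) x = supp A x + supp A (-x) :=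
    fun A hA hAn x => DMod.supp_sub hA hAn hA hAn x
  have hKK : Convex ℝ (K - K) := hK.2.1.sub hK.2.1
  have hd0 : (C + W) - (C + W) = K - K := by
    apply DMod.eq_of_supp (DMod.cpt_sub hc0 hc0) (hv0.sub hv0) (hn0.sub hn0)
      (DMod.cpt_sub hK.1 hK.1) hKK (hKn.sub hKn)
    intro x
    rw [sd _ hc0 hn0, sd _ hK.1 hKn, s0, s0, sK, sK, neg_neg]
    ring
  have hd1 : (C - W) - (C - W) = K - K := by
    apply DMod.eq_of_supp (DMod.cpt_sub hc1 hc1) (hv1.sub hv1) (hn1.sub hn1)
      (DMod.cpt_sub hK.1 hK.1) hKK (hKn.sub hKn)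
    intro x
    rw [sd _ hc1 hn1, sd _ hK.1 hKn, s1, s1, sK, sK, neg_neg]
    ring
  have hB0 : Body (C + W) := ⟨hc0, hv0, DMod.interior_of_sub hK.2.2 hv0 hd0⟩
  have hB1 : Body (C - W) := ⟨hc1, hv1, DMod.interior_of_sub hK.2.2 hv1 hd1⟩
  have hs : K = (1 - t) • (C + W) + t • (C - W) := by
    apply DMod.eq_of_supp hK.1 hK.2.1 hKn ((hc0.smul _).add (hc1.smul _))
      ((hv0.smul _).add (hv1.smul _)) (hn0.smul_set.add hn1.smul_set)
    intro x
    rw [DMod.supp_add (hc0.smul _) hn0.smul_set (hc1.smul _) hn1.smul_set,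
      DMod.supp_dil hc0 hn0 ht1', DMod.supp_dil hc1 hn1 ht0.le, s0, s1, sK]
    ring
  have hne : ∀ v : V, C - W ≠ (fun x => x + v) '' (C + W) := by
    intro v hv
    rw [image_add_singleton] at hv
    apply hsym v
    rw [image_add_singleton]
    apply DMod.eq_of_supp hWneg hWv.neg hWnn (hW.add isCompact_singleton)
      (hWv.add (convex_singleton v)) (hWn.add (singleton_nonempty v))
    intro x
    have h1 : supp (C - W) x = supp ((C + W) + {v}) x := congrArg (fun S => supp S x) hv
    rw [s1, DMod.supp_add hc0 hn0 isCompact_singleton (singleton_nonempty v), s0,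
      supp_singleton] at h1
    rw [sneg, DMod.supp_add hW hWn isCompact_singleton (singleton_nonempty v), supp_singleton]
    linarith
  rcases extreme hBM hK hB0 hB1 ht0 ht1 hd0 hd1 hs hne with h | h
  · exact Or.inl ⟨hB0, hd0, h.1, h.2⟩
  · exact Or.inr ⟨hB1, hd1, h.1, h.2⟩

end Pool.Agent.K4H96.EX
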